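import Pool.Agent.Helper741_OutEmb.Rank
import Pool.Agent.Helper156.OF.Pres

set_option autoImplicit false
set_option linter.unusedSectionVars false

/-!
# The affine action of `Aut(F_n)` on `(ℤ/k)^n`

Inner automorphisms act by translations by multiples of `2 (n - 1)`.
-/

namespace Pool.Agent.Helper741_OutEmb

open Pool.Agent.Helper156.OF

section

variable {α : Type} [DecidableEq α] {R : Type} [CommRing R]

/-- Signed coordinate of a vector at a letter. -/
def co (x : Lt α) (v : α → R) : R := if x.2 = true then v x.1 else - v x.1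

lemma co_nv (x : Lt α) (v : α → R) : co (nv x) v = - co x v := by
  obtain ⟨i, b⟩ := x
  cases b <;> simp [co, nv]

lemma co_add (x : Lt α) (v w : α → R) : co x (v + w) = co x v + co x w := by
  obtain ⟨i, b⟩ := x
  cases b <;> simp [co, add_comm]

lemma co_smul (x : Lt α) (r : R) (v : α → R) : co x (r • v) = r * co x v := by
  obtain ⟨i, b⟩ := x
  cases b <;> simp [co]

lemma co_zero (x : Lt α) : co x (0 : α → R) = 0 := by
  obtain ⟨i, b⟩ := x
  cases b <;> simp [co]

lemma co_ext {v w : α → R} (h : ∀ x : Lt α, co x v = co x w) : v = w := by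
  funext i
  exact h (i, true)

/-- The vector of a letter. -/
def ev (R : Type) [CommRing R] (x : Lt α) : α → R :=
  if x.2 = true then Pi.single x.1 1 else - Pi.single x.1 1

/-- The pairing of letters. -/
def dl (R : Type) [CommRing R] (y a : Lt α) : R := if y = a then 1 else if y = nv a then -1 else 0

lemma co_ev (y a : Lt α) : co y (ev R a) = dl R y a := by
  obtain ⟨i, b⟩ := y
  obtain ⟨j, c⟩ := a
  unfold co ev dl nv
  by_cases h : i = j
  · subst h
    cases b <;> cases c <;> simp
  · cases b <;> cases c <;> simp [h, Pi.single_eq_of_ne h]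

lemma dl_of_ne {y a : Lt α} (h : y.1 ≠ a.1) : dl R y a = 0 := by
  have h1 : y ≠ a := fun e => h (e ▸ rfl)
  have h2 : y ≠ nv a := fun e => h (e ▸ rfl)
  simp [dl, h1, h2]

lemma dl_self (a : Lt α) : dl R a a = 1 := by simp [dl]

lemma dl_nv_left (y a : Lt α) : dl R (nv y) a = - dl R y a := by
  rw [← co_ev, co_nv, co_ev]

lemma dl_nv_right (y a : Lt α) : dl R y (nv a) = - dl R y a := by
  unfold dl
  rw [nv_nv]
  by_cases h1 : y = a
  · subst h1
    simp [ne_nv]
  · by_cases h2 : y = nv a
    · simp [h2, nv_ne]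
    · simp [h1, h2]

lemma dl_map (σ : SP α) (y a : Lt α) :
    dl R ((σ : Equiv.Perm (Lt α)) y) ((σ : Equiv.Perm (Lt α)) a) = dl R y a := by
  unfold dl
  rw [← SP.map_nv]
  simp

lemma ev_nv (a : Lt α) : ev R (nv a) = - ev R a := by
  apply co_ext
  intro x
  rw [co_ev, dl_nv_right]
  have : co x (- ev R a) = - co x (ev R a) := by
    have := co_smul x (-1 : R) (ev R a)
    simpa using this
  rw [this, co_ev]

/-- The linear action of signed permutations, as a map. -/
def wFun (σ : SP α) (v : α → R) : α → R := fun i => co (((σ⁻¹ : SP α) : Equiv.Perm (Lt α)) (i, true)) v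

lemma co_wFun (σ : SP α) (v : α → R) (x : Lt α) :
    co x (wFun σ v) = co (((σ⁻¹ : SP α) : Equiv.Perm (Lt α)) x) v := by
  obtain ⟨i, b⟩ := x
  cases b
  · have h : ((i, false) : Lt α) = nv (i, true) := rfl
    rw [h, co_nv, SP.map_nv, co_nv]
    rfl
  · rfl

/-- The linear action of signed permutations. -/
def wPerm (R : Type) [CommRing R] : SP α →* Equiv.Perm (α → R) where
  toFun σ :=
    { toFun := wFun σ
      invFun := wFun σ⁻¹
      left_inv := fun v => co_ext fun x => by
        rw [co_wFun, co_wFun, ← Equiv.Perm.mul_apply, ← Subgroup.coe_mul]; simp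
      right_inv := fun v => co_ext fun x => by
        rw [co_wFun, co_wFun, ← Equiv.Perm.mul_apply, ← Subgroup.coe_mul]; simp }
  map_one' := Equiv.ext fun v => co_ext fun x => by
    change co x (wFun 1 v) = co x v
    rw [co_wFun]; simp
  map_mul' σ τ := Equiv.ext fun v => co_ext fun x => by
    change co x (wFun (σ * τ) v) = co x (wFun σ (wFun τ v))
    rw [co_wFun, co_wFun, co_wFun, mul_inv_rev, Subgroup.coe_mul, Equiv.Perm.mul_apply]

lemma co_wPerm (σ : SP α) (v : α → R) (x : Lt α) :
    co x (wPerm R σ v) = co (((σ⁻¹ : SP α) : Equiv.Perm (Lt α)) x) v := co_wFun σ v x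

/-- The affine elementary maps. -/
def aFun (x a : Lt α) (v : α → R) : α → R := if x.1 = a.1 then v else v + (co x v + 1) • ev R a

lemma co_aFun {x a : Lt α} (h : x.1 ≠ a.1) (v : α → R) (y : Lt α) :
    co y (aFun x a v) = co y v + (co x v + 1) * dl R y a := by
  rw [aFun, if_neg h, co_add, co_smul, co_ev]

lemma aFun_inv (x a : Lt α) (v : α → R) : aFun x (nv a) (aFun x a v) = v := by
  by_cases h : x.1 = a.1
  · simp [aFun, h]
  · apply co_ext
    intro y
    rw [co_aFun (by simpa using h), co_aFun h, co_aFun h, dl_of_ne h, dl_nv_right]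
    ring

/-- The affine elementary permutations. -/
def aPerm (R : Type) [CommRing R] (x a : Lt α) : Equiv.Perm (α → R) where
  toFun := aFun x a
  invFun := aFun x (nv a)
  left_inv := aFun_inv x a
  right_inv := fun v => by
    have := aFun_inv x (nv a) v
    rwa [nv_nv] at this

lemma aPerm_apply (x a : Lt α) (v : α → R) : aPerm R x a v = aFun x a v := rfl

lemma co_aPerm {x a : Lt α} (h : x.1 ≠ a.1) (v : α → R) (y : Lt α) :
    co y (aPerm R x a v) = co y v + (co x v + 1) * dl R y a := co_aFun h v y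

lemma aPerm_junk {x a : Lt α} (h : x.1 = a.1) : aPerm R x a = 1 := by
  ext v : 1
  rw [aPerm_apply, aFun, if_pos h]
  rfl

lemma fst_map_ne (σ : SP α) {x a : Lt α} (h : x.1 ≠ a.1) :
    ((σ : Equiv.Perm (Lt α)) x).1 ≠ ((σ : Equiv.Perm (Lt α)) a).1 := by
  intro e
  rcases fst_eq_iff.1 e with e | e
  · exact h (by rw [(σ : Equiv.Perm (Lt α)).injective e])
  · rw [← SP.map_nv] at e
    exact h (by rw [(σ : Equiv.Perm (Lt α)).injective e, nv_fst])

/-- The relations of the affine action. -/
theorem rel_affine : Rel (wPerm R : SP α →* Equiv.Perm (α → R)) (aPerm R) where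
  junk x a h := aPerm_junk h
  e0 w x a := by
    rw [mul_inv_eq_iff_eq_mul]
    by_cases h : x.1 = a.1
    · have h' : ((w : Equiv.Perm (Lt α)) x).1 = ((w : Equiv.Perm (Lt α)) a).1 := by
        rcases fst_eq_iff.1 h with e | e
        · rw [e]
        · rw [e, SP.map_nv, nv_fst]
      rw [aPerm_junk h, aPerm_junk h', one_mul, mul_one]
    · have h' := fst_map_ne w h
      ext v : 1
      apply co_ext
      intro y
      rw [Equiv.Perm.mul_apply, Equiv.Perm.mul_apply, co_aPerm h', co_wPerm, co_wPerm, co_wPerm,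
        co_aPerm h]
      have e1 : ((w⁻¹ : SP α) : Equiv.Perm (Lt α)) ((w : Equiv.Perm (Lt α)) x) = x := by
        rw [← Equiv.Perm.mul_apply, ← Subgroup.coe_mul]; simp
      have e2 : dl R y ((w : Equiv.Perm (Lt α)) a) =
          dl R (((w⁻¹ : SP α) : Equiv.Perm (Lt α)) y) a := by
        rw [← dl_map w⁻¹ y]
        congr 1
        rw [← Equiv.Perm.mul_apply, ← Subgroup.coe_mul]; simp
      rw [e1, e2]
  e1 x a := by
    rw [eq_inv_iff_mul_eq_one]
    by_cases h : x.1 = a.1
    · rw [aPerm_junk h, aPerm_junk (by simpa using h), one_mul]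
    · ext v : 1
      exact aFun_inv x a v
  e2 x y a b hxy h1 h2 := by
    by_cases hx : x.1 = a.1
    · rw [aPerm_junk hx]
      exact Commute.one_left _
    by_cases hy : y.1 = b.1
    · rw [aPerm_junk hy]
      exact Commute.one_right _
    ext v : 1
    apply co_ext
    intro z
    rw [Equiv.Perm.mul_apply, Equiv.Perm.mul_apply, co_aPerm hx, co_aPerm hy, co_aPerm hy,
      co_aPerm hy, co_aPerm hx, co_aPerm hx, dl_of_ne h1, dl_of_ne h2]
    ring
  e3 x y z h1 h2 h3 := by
    rw [mul_inv_eq_iff_eq_mul]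
    ext v : 1
    apply co_ext
    intro c
    simp only [Equiv.Perm.mul_apply]
    rw [co_aPerm h3, co_aPerm h1, co_aPerm h1, co_aPerm h1, co_aPerm h2, co_aPerm h3, co_aPerm h3,
      co_aPerm h2, co_aPerm h3, dl_self, dl_of_ne h2]
    ring
  e4 a b σ h1 h2 h3 h4 := by
    have h1' : b.1 ≠ a.1 := Ne.symm h1
    have h1'' : (nv a).1 ≠ b.1 := h1
    ext v : 1
    apply co_ext
    intro y
    simp only [Equiv.Perm.mul_apply]
    rw [co_wPerm, co_aPerm h1'', co_aPerm h1', co_aPerm h1', co_aPerm h1, co_nv, dl_nv_left, dl_self]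
    -- the inverse of `σ` on letters
    have s1 : ((σ⁻¹ : SP α) : Equiv.Perm (Lt α)) (nv b) = a := by
      rw [← h2, ← Equiv.Perm.mul_apply, ← Subgroup.coe_mul]; simp
    have s2 : ((σ⁻¹ : SP α) : Equiv.Perm (Lt α)) a = b := by
      conv_lhs => rw [← h3]
      rw [← Equiv.Perm.mul_apply, ← Subgroup.coe_mul]; simp
    have s1' : ((σ⁻¹ : SP α) : Equiv.Perm (Lt α)) b = nv a := by
      have := SP.map_nv σ⁻¹ (nv b)
      rw [nv_nv, s1] at this
      exact this
    have s2' : ((σ⁻¹ : SP α) : Equiv.Perm (Lt α)) (nv a) = nv b := by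
      rw [SP.map_nv, s2]
    by_cases ya : y.1 = a.1
    · rcases fst_eq_iff.1 ya with e | e
      · subst e
        rw [s2, dl_self, dl_self, dl_of_ne h1]
        ring
      · subst e
        rw [s2', dl_nv_left, dl_nv_left, dl_nv_left, dl_self, dl_self, co_nv, co_nv, dl_of_ne h1]
        ring
    · by_cases yb : y.1 = b.1
      · rcases fst_eq_iff.1 yb with e | e
        · subst e
          rw [s1', dl_self, co_nv, dl_nv_left, dl_of_ne h1, dl_of_ne h1']
          ring
        · subst e
          rw [s1, dl_nv_left, dl_nv_left, dl_self, co_nv, dl_of_ne h1, dl_of_ne h1']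
          ring
      · have s3 : ((σ⁻¹ : SP α) : Equiv.Perm (Lt α)) y = y := by
          conv_lhs => rw [← h4 y ya yb]
          rw [← Equiv.Perm.mul_apply, ← Subgroup.coe_mul]; simp
        rw [s3, dl_of_ne ya, dl_of_ne yb]
        ring

end

end Pool.Agent.Helper741_OutEmb
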