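import Pool.Agent.Helper741_OutEmb.Affine

set_option autoImplicit false
set_option linter.unusedSectionVars false

/-!
# Supplements of index `k ^ n`, `k` odd and coprime to `n - 1`
-/

namespace Pool.Agent.Helper741_OutEmb

open Pool.Agent.Helper156.OF

section

variable {α : Type} [DecidableEq α] [Fintype α]

lemma cprod_eAut (a : Lt α) (s : Finset (Lt α)) (y : Lt α) (hy : y.1 ≠ a.1) :
    cprod (fun x => eAut x a) s (gl y) =
      (if nv y ∈ s then gl a else 1)⁻¹ * gl y * (if y ∈ s then gl a else 1) := by
  have hpc : PC (fun x : Lt α => eAut x a) := rel_aut.pc a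
  induction s using Finset.induction_on with
  | empty => simp
  | insert x s hx ih =>
    rw [cprod_insert hpc hx, MulAut.mul_apply, ih]
    by_cases h : x.1 = a.1
    · rw [eAut_junk x a h, MulAut.one_apply]
      have h1 : y ≠ x := fun e => hy (by rw [e, h])
      have h2 : nv y ≠ x := fun e => hy (by rw [← nv_fst, e, h])
      simp [h1, h2]
    · have hfa : eAut x a (gl a) = gl a := eAut_fix x a a (Ne.symm h)
      have hif : ∀ p : Prop, ∀ [Decidable p], eAut x a (if p then gl a else 1) =
          if p then gl a else 1 := by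
        intro p _
        split_ifs
        · exact hfa
        · exact map_one _
      rw [map_mul, map_mul, map_inv, hif, hif, eAut_um x a h y]
      unfold um
      by_cases h1 : y = x
      · subst h1
        have h2 : nv y ≠ y := nv_ne y
        simp [hx, h2, mul_assoc]
      · by_cases h2 : nv y = x
        · subst h2
          have h3 : y ≠ nv y := ne_nv y
          simp [hx, h3]
        · simp [h1, h2]

lemma cprod_eAut_same (a : Lt α) (s : Finset (Lt α)) (y : Lt α) (hy : y.1 = a.1) :
    cprod (fun x => eAut x a) s (gl y) = gl y := by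
  have hpc : PC (fun x : Lt α => eAut x a) := rel_aut.pc a
  induction s using Finset.induction_on with
  | empty => simp
  | insert x s hx ih =>
    rw [cprod_insert hpc hx, MulAut.mul_apply, ih]
    by_cases h : x.1 = a.1
    · rw [eAut_junk x a h, MulAut.one_apply]
    · exact eAut_fix x a y (fun e => h (by rw [← e, hy]))

lemma cprod_eAut_univ (a : Lt α) :
    cprod (fun x => eAut x a) (Finset.univ : Finset (Lt α)) = (MulAut.conj (gl a))⁻¹ := by
  apply aut_ext_gl
  intro y
  by_cases hy : y.1 = a.1
  · rw [cprod_eAut_same a _ y hy, ← map_inv, MulAut.conj_apply]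
    rcases fst_eq_iff.1 hy with e | e
    · subst e; group
    · subst e; rw [gl_nv]; group
  · rw [cprod_eAut a _ y hy, ← map_inv, MulAut.conj_apply]
    simp

variable (R : Type) [CommRing R]

lemma cprod_aPerm (a : Lt α) (s : Finset (Lt α)) (v : α → R) :
    cprod (fun x => aPerm R x a) s v =
      v + (∑ x ∈ s.filter (fun x => x.1 ≠ a.1), (co x v + 1)) • ev R a := by
  have hpc : PC (fun x : Lt α => aPerm R x a) := rel_affine.pc a
  induction s using Finset.induction_on with
  | empty => simp
  | insert x s hx ih =>
    rw [cprod_insert hpc hx, Equiv.Perm.mul_apply, ih]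
    by_cases h : x.1 = a.1
    · rw [aPerm_junk h, Finset.filter_insert, if_neg (by simpa using h)]
      rfl
    · rw [Finset.filter_insert, if_pos h, Finset.sum_insert (by simp [hx])]
      apply co_ext
      intro y
      rw [co_aPerm h, co_add, co_add, co_add, co_smul, co_smul, co_smul, co_ev, co_ev, dl_of_ne h]
      ring

lemma sum_co (a : Lt α) (v : α → R) :
    ∑ x ∈ (Finset.univ : Finset (Lt α)).filter (fun x => x.1 ≠ a.1), (co x v + 1) =
      2 * ((Fintype.card α - 1 : ℕ) : R) := by
  rw [Finset.sum_filter, Fintype.sum_prod_type]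
  have h : ∀ i : α, (∑ b : Bool, if ((i, b) : Lt α).1 ≠ a.1 then (co ((i, b) : Lt α) v + 1) else 0) =
      if i ≠ a.1 then (2 : R) else 0 := by
    intro i
    rw [Fintype.sum_bool]
    by_cases hi : i = a.1
    · simp [hi]
    · simp only [ne_eq, hi, not_false_eq_true, if_true, co]
      simp
      ring
  rw [Finset.sum_congr rfl fun i _ => h i, Finset.sum_ite]
  simp only [Finset.sum_const_zero, add_zero, Finset.sum_const, nsmul_eq_mul]
  have : (Finset.univ.filter (fun i : α => i ≠ a.1)).card = Fintype.card α - 1 := by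
    rw [Finset.filter_ne' Finset.univ a.1, Finset.card_erase_of_mem (Finset.mem_univ _)]
    rfl
  rw [this, mul_comm]

/-- The affine action of the automorphism group. -/
theorem exists_aff [Nonempty α] : ∃ f : MulAut (FreeGroup α) →* Equiv.Perm (α → R),
    (∀ w, f (toAut w) = wPerm R w) ∧ (∀ x a, f (eAut x a) = aPerm R x a) ∧
    (∀ a v, f (MulAut.conj (gl a)) v = v - (2 * ((Fintype.card α - 1 : ℕ) : R)) • ev R a) := by
  obtain ⟨f, h1, h2⟩ := presentation (α := α) (rel_affine (R := R))
  refine ⟨f, h1, h2, ?_⟩
  intro a v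
  have h3 : (f (MulAut.conj (gl a)))⁻¹ = cprod (fun x => aPerm R x a) Finset.univ := by
    rw [← map_inv, ← cprod_eAut_univ, map_cprod]
    exact cprod_congr fun x _ => h2 x a
  have h4 : ∀ w, (f (MulAut.conj (gl a)))⁻¹ w = w + (2 * ((Fintype.card α - 1 : ℕ) : R)) • ev R a := by
    intro w
    rw [h3, cprod_aPerm, sum_co]
  have h5 := h4 (v - (2 * ((Fintype.card α - 1 : ℕ) : R)) • ev R a)
  rw [sub_add_cancel] at h5
  exact ((Equiv.Perm.inv_eq_iff_eq.1 h5)).symm

end

end Pool.Agent.Helper741_OutEmb
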