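import Pool.Agent.Helper741_OutEmb.Hall

set_option autoImplicit false
set_option linter.unusedSectionVars false

/-!
# Supplements of index `k ^ ((n - 1) (|F_n / M| - 1))` for characteristic subgroups `M`
-/

namespace Pool.Agent.Helper741_OutEmb

open Subgroup MulAction
open scoped IsMulCommutative

/-- The cyclic group of order `k`, written multiplicatively. -/
abbrev Zk (k : ℕ) : Type := Multiplicative (ZMod k)

section ab

variable (r k : ℕ)

/-- The homomorphism from the free group of rank `r` onto `(ℤ/k)^r`. -/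
def ab : FreeGroup (Fin r) →* Multiplicative (Fin r → ZMod k) :=
  FreeGroup.lift fun i => Multiplicative.ofAdd (Pi.single i 1)

lemma ab_of (i : Fin r) : ab r k (FreeGroup.of i) = Multiplicative.ofAdd (Pi.single i 1) := by
  simp [ab]

lemma hom_eq (l : FreeGroup (Fin r) →* Zk k) (f : FreeGroup (Fin r)) :
    Multiplicative.toAdd (l f) =
      ∑ i, (Multiplicative.toAdd (ab r k f)) i * Multiplicative.toAdd (l (FreeGroup.of i)) := by
  induction f using FreeGroup.induction_on with
  | C1 => simp
  | of j =>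
    rw [ab_of]
    simp [Pi.single_apply]
  | inv_of j ih =>
    rw [map_inv l, map_inv (ab r k), toAdd_inv, toAdd_inv, ih]
    simp [Finset.sum_neg_distrib]
  | mul x y hx hy =>
    rw [map_mul l, map_mul (ab r k), toAdd_mul, toAdd_mul, hx, hy]
    simp [add_mul, Finset.sum_add_distrib]

lemma hom_eq_one {f : FreeGroup (Fin r)} (hf : ab r k f = 1) (l : FreeGroup (Fin r) →* Zk k) :
    l f = 1 := by
  have := hom_eq r k l f
  rw [hf] at this
  apply Multiplicative.toAdd.injective
  rw [this]
  simp

/-- The coordinates. -/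
def coord (i : Fin r) : Multiplicative (Fin r → ZMod k) →* Zk k :=
  AddMonoidHom.toMultiplicative (Pi.evalAddMonoidHom (fun _ => ZMod k) i)

lemma ab_eq_one {f : FreeGroup (Fin r)} (hf : ∀ l : FreeGroup (Fin r) →* Zk k, l f = 1) :
    ab r k f = 1 := by
  apply Multiplicative.toAdd.injective
  funext i
  exact congrArg Multiplicative.toAdd (hf ((coord r k i).comp (ab r k)))

lemma ab_surj (hk : k ≠ 0) : Function.Surjective (ab r k) := by
  have : NeZero k := ⟨hk⟩
  intro w
  let S : AddSubgroup (Fin r → ZMod k) :=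
    { carrier := {w | ∃ g, Multiplicative.toAdd (ab r k g) = w}
      add_mem' := by
        rintro _ _ ⟨g, rfl⟩ ⟨h, rfl⟩
        exact ⟨g * h, by rw [map_mul, toAdd_mul]⟩
      zero_mem' := ⟨1, by rw [map_one]; rfl⟩
      neg_mem' := by
        rintro _ ⟨g, rfl⟩
        exact ⟨g⁻¹, by rw [map_inv, toAdd_inv]⟩ }
  have hS : ∀ (i : Fin r) (c : ZMod k), (Pi.single i c : Fin r → ZMod k) ∈ S := by
    intro i c
    have h1 : (Pi.single i 1 : Fin r → ZMod k) ∈ S := ⟨FreeGroup.of i, by rw [ab_of]; rfl⟩
    have h2 : (Pi.single i c : Fin r → ZMod k) = c.val • (Pi.single i 1 : Fin r → ZMod k) := by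
      rw [← Nat.cast_smul_eq_nsmul (ZMod k), ZMod.natCast_zmod_val, ← Pi.single_smul]
      simp
    rw [h2]
    exact S.nsmul_mem h1 _
  have : Multiplicative.toAdd w ∈ S := by
    rw [← Finset.univ_sum_single (Multiplicative.toAdd w)]
    exact S.sum_mem fun i _ => hS i _
  obtain ⟨g, hg⟩ := this
  exact ⟨g, Multiplicative.toAdd.injective hg⟩

lemma card_ab (hk : k ≠ 0) : Nat.card (Multiplicative (Fin r → ZMod k)) = k ^ r := by
  rw [Nat.card_congr Multiplicative.toAdd, Nat.card_fun, Nat.card_zmod, Nat.card_fin]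

end ab

section Lk

variable {G : Type} [Group G] (M : Subgroup G) (k : ℕ)

/-- The intersection of the kernels of all homomorphisms from `M` to the cyclic group of order
`k`. -/
def Lk : Subgroup G := (⨅ l : M →* Zk k, l.ker).map M.subtype

lemma mem_Lk {f : G} : f ∈ Lk M k ↔ ∃ hf : f ∈ M, ∀ l : M →* Zk k, l ⟨f, hf⟩ = 1 := by
  unfold Lk
  rw [Subgroup.mem_map]
  constructor
  · rintro ⟨x, hx, rfl⟩
    refine ⟨x.2, fun l => ?_⟩
    rw [Subgroup.mem_iInf] at hx
    exact hx l
  · rintro ⟨hf, h⟩
    refine ⟨⟨f, hf⟩, ?_, rfl⟩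
    rw [Subgroup.mem_iInf]
    exact h

lemma Lk_le : Lk M k ≤ M := by
  intro f hf
  obtain ⟨h, _⟩ := (mem_Lk M k).1 hf
  exact h

instance Lk_char [hM : M.Characteristic] : (Lk M k).Characteristic := by
  rw [Subgroup.characteristic_iff_map_le]
  intro φ
  rw [Subgroup.map_le_iff_le_comap]
  intro f hf
  obtain ⟨h, hl⟩ := (mem_Lk M k).1 hf
  have hm : ∀ x ∈ M, φ x ∈ M := by
    intro x hx
    exact (Subgroup.characteristic_iff_map_le.1 hM φ) (Subgroup.mem_map_of_mem _ hx)
  rw [Subgroup.mem_comap, mem_Lk]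
  refine ⟨hm f h, fun l => ?_⟩
  let ψ : M →* M := (φ.toMonoidHom.comp M.subtype).codRestrict M (fun x => hm x.1 x.2)
  exact hl (l.comp ψ)

lemma subgroupOf_Lk : (Lk M k).subgroupOf M = ⨅ l : M →* Zk k, l.ker := by
  unfold Lk
  exact Subgroup.comap_map_eq_self_of_injective M.subtype_injective _

end Lk

/-- **Supplements from characteristic subgroups.** -/
theorem exists_supp_char {n k : ℕ} (hn : 1 ≤ n) (hk : k ≠ 0) (M : Subgroup (FreeGroup (Fin n)))
    [M.Characteristic] (hM : M.index ≠ 0) (hco : Nat.Coprime k M.index) :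
    ∃ A : Subgroup (MulAut (FreeGroup (Fin n))), IsSupp A (k ^ ((n - 1) * (M.index - 1))) := by
  have hNZ : NeZero k := ⟨hk⟩
  set g := M.index with hg
  set L := Lk M k with hL
  set π := QuotientGroup.mk' L with hπ
  have hπs : Function.Surjective π := QuotientGroup.mk'_surjective L
  have hLM : L ≤ M := Lk_le M k
  -- the order of `M / L`
  obtain ⟨e⟩ := schreier hn M hM
  rw [← hg] at e
  set ρ := 1 + (n - 1) * g with hρ
  have hLindex : (L.subgroupOf M).index = k ^ ρ := by
    have h1 : (⨅ l : M →* Zk k, l.ker) = ((ab ρ k).comp e.toMonoidHom).ker := by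
      ext x
      rw [Subgroup.mem_iInf, MonoidHom.mem_ker]
      constructor
      · intro h
        apply ab_eq_one
        intro l
        exact h (l.comp e.toMonoidHom)
      · intro h l
        have h2 := hom_eq_one ρ k (f := e x) h (l.comp e.symm.toMonoidHom)
        rw [MonoidHom.mem_ker]
        have h3 : (l.comp e.symm.toMonoidHom) (e x) = l (e.symm (e x)) := rfl
        rw [h3, e.symm_apply_apply] at h2
        exact h2
    rw [hL, subgroupOf_Lk, h1, Subgroup.index_ker]
    have h2 : ((ab ρ k).comp e.toMonoidHom).range = ⊤ :=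
      MonoidHom.range_eq_top.2 ((ab_surj ρ k hk).comp e.surjective)
    rw [h2, Subgroup.card_top, card_ab ρ k hk]
  have hLfin : L.index ≠ 0 := by
    rw [← Subgroup.relIndex_mul_index hLM]
    refine Nat.mul_ne_zero ?_ hM
    show (L.subgroupOf M).index ≠ 0
    rw [hLindex]
    exact pow_ne_zero _ hk
  have hfin : Finite (FreeGroup (Fin n) ⧸ L) := Nat.finite_of_card_ne_zero hLfin
  -- the subgroup `R`
  let R : Subgroup (FreeGroup (Fin n) ⧸ L) := M.map π
  have hRn : R.Normal := Subgroup.Normal.map inferInstance π hπs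
  let πM : M →* R := (π.comp M.subtype).codRestrict R (fun x => Subgroup.mem_map_of_mem _ x.2)
  have hπMs : Function.Surjective πM := by
    rintro ⟨_, m, hm, rfl⟩
    exact ⟨⟨m, hm⟩, rfl⟩
  have hkerπM : πM.ker = L.subgroupOf M := by
    ext x
    rw [MonoidHom.mem_ker, Subgroup.mem_subgroupOf, ← Subtype.coe_inj]
    exact QuotientGroup.eq_one_iff (N := L) x.1
  have hRcard : Nat.card R = k ^ ρ := by
    rw [← hLindex, ← hkerπM, Subgroup.index_ker, MonoidHom.range_eq_top.2 hπMs, Subgroup.card_top]
  have hRindex : R.index = g := by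
    rw [← Subgroup.index_comap_of_surjective R hπs, Subgroup.comap_map_eq]
    congr 1
    have : π.ker = L := QuotientGroup.ker_mk' L
    rw [this]
    exact sup_eq_left.2 hLM
  have hRcomm : IsMulCommutative R := by
    refine ⟨⟨?_⟩⟩
    intro a b
    obtain ⟨x, rfl⟩ := hπMs a
    obtain ⟨y, rfl⟩ := hπMs b
    rw [← map_mul, ← map_mul]
    have h1 : (x * y)⁻¹ * (y * x) ∈ πM.ker := by
      rw [hkerπM, hL, subgroupOf_Lk, Subgroup.mem_iInf]
      intro l
      rw [MonoidHom.mem_ker, map_mul, map_inv, map_mul, map_mul, mul_comm (l y), inv_mul_cancel]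
    rw [MonoidHom.mem_ker, map_mul, map_inv, inv_mul_eq_one] at h1
    exact h1
  have hcoR : Nat.Coprime (Nat.card R) R.index := by
    rw [hRcard, hRindex]
    exact Nat.Coprime.pow_left _ hco
  -- the abelianisation
  have hLab : L ≤ (ab n k).ker := by
    intro f hf
    obtain ⟨h, hl⟩ := (mem_Lk M k).1 hf
    rw [MonoidHom.mem_ker]
    apply ab_eq_one
    intro l
    exact hl (l.comp M.subtype)
  let β : FreeGroup (Fin n) ⧸ L →* Multiplicative (Fin n → ZMod k) :=
    QuotientGroup.lift L (ab n k) (fun x hx => hLab hx)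
  have hβ : ∀ f, β (π f) = ab n k f := fun f => rfl
  have hβs : Function.Surjective β := by
    intro w
    obtain ⟨f, hf⟩ := ab_surj n k hk w
    exact ⟨π f, hf⟩
  -- the central part of `R`
  set Z : Subgroup (FreeGroup (Fin n) ⧸ L) := R ⊓ center (FreeGroup (Fin n) ⧸ L) with hZ
  have hZcard : Nat.card Z = k ^ n := by
    rw [← card_ab n k hk]
    refine Nat.card_congr (Equiv.ofBijective (fun z : Z => β z.1) ⟨?_, ?_⟩)
    · -- injectivity, by the transfer
      have key : ∀ z ∈ Z, β z = 1 → z = 1 := by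
        rintro z ⟨hz1, hz2⟩ hz
        obtain ⟨m, hm, rfl⟩ := hz1
        have hm1 : π m = 1 ↔ m ∈ L := QuotientGroup.eq_one_iff m
        rw [hm1, hL, mem_Lk]
        refine ⟨hm, fun l => ?_⟩
        have hle : πM.ker ≤ l.ker := by
          rw [hkerπM, hL, subgroupOf_Lk]
          exact iInf_le _ l
        obtain ⟨μ, hμ⟩ : ∃ μ : R →* Zk k, ∀ x, μ (πM x) = l x :=
          ⟨(πM.liftOfSurjective hπMs) ⟨l, hle⟩, fun x =>
            MonoidHom.liftOfRightInverse_comp_apply _ _ _ _ x⟩
        have hT : μ.transfer (π m) = 1 := hom_eq_one n k (f := m) hz (μ.transfer.comp π)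
        have hcen : ∀ (j : ℕ) (q : FreeGroup (Fin n) ⧸ L), q⁻¹ * (π m) ^ j * q = (π m) ^ j := by
          intro j q
          have hc : (π m) ^ j ∈ center (FreeGroup (Fin n) ⧸ L) :=
            (center (FreeGroup (Fin n) ⧸ L)).pow_mem hz2 j
          rw [mul_assoc, ← Subgroup.mem_center_iff.1 hc q]
          group
        have hT2 := MonoidHom.transfer_eq_pow μ (π m) (fun j q _ => hcen j q)
        rw [hT] at hT2
        have hT3 : (μ (πM ⟨m, hm⟩)) ^ g = 1 := by
          rw [← map_pow, hT2]
          congr 1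
          apply Subtype.ext
          show (π m) ^ g = (π m) ^ R.index
          rw [hRindex]
        rw [hμ] at hT3
        have hc2 : (Nat.card (Zk k)).Coprime g := by
          rw [Nat.card_congr Multiplicative.toAdd, Nat.card_zmod]
          exact hco
        exact (powCoprime hc2).injective (by simpa using hT3)
      rintro ⟨x, hx⟩ ⟨y, hy⟩ hxy
      apply Subtype.ext
      have h1 : β (x * y⁻¹) = 1 := by
        rw [map_mul, map_inv]
        exact mul_inv_eq_one.2 hxy
      exact mul_inv_eq_one.1 (key _ (Z.mul_mem hx (Z.inv_mem hy)) h1)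
    · -- surjectivity, by the norm
      intro w
      have hc2 : (Nat.card (Multiplicative (Fin n → ZMod k))).Coprime (g * g) := by
        rw [card_ab n k hk]
        exact Nat.Coprime.pow_left _ (Nat.Coprime.mul_right hco hco)
      obtain ⟨w0, hw0⟩ := (powCoprime hc2).surjective w
      have hw0' : w0 ^ (g * g) = w := hw0
      obtain ⟨q, hq⟩ := hβs w0
      let r : R := ⟨q ^ R.index, R.pow_index_mem q⟩
      have : Fintype ((FreeGroup (Fin n) ⧸ L) ⧸ R) := Fintype.ofFinite _
      let N : R := ∏ c : (FreeGroup (Fin n) ⧸ L) ⧸ R, MulAut.conjNormal (Quotient.out c) r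
      have hconj1 : ∀ (s : R), MulAut.conjNormal (s : FreeGroup (Fin n) ⧸ L) r = r := by
        intro s
        apply Subtype.ext
        rw [MulAut.conjNormal_apply]
        have := congrArg Subtype.val (mul_comm s r)
        change (s : FreeGroup (Fin n) ⧸ L) * r = r * s at this
        rw [this]
        group
      have hout : ∀ (x : FreeGroup (Fin n) ⧸ L) (c : (FreeGroup (Fin n) ⧸ L) ⧸ R),
          MulAut.conjNormal (x * Quotient.out c) r = MulAut.conjNormal (Quotient.out (x • c)) r := by
        intro x c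
        have h1 : (((x * Quotient.out c : FreeGroup (Fin n) ⧸ L)) :
            (FreeGroup (Fin n) ⧸ L) ⧸ R) = x • c := by
          conv_rhs => rw [← Quotient.out_eq' c]
          rfl
        have h2 : ((Quotient.out (x • c) : FreeGroup (Fin n) ⧸ L) :
            (FreeGroup (Fin n) ⧸ L) ⧸ R) = x • c := Quotient.out_eq' _
        have h3 : (Quotient.out (x • c))⁻¹ * (x * Quotient.out c) ∈ R := by
          rw [← QuotientGroup.eq, h1, h2]
        have h4 : x * Quotient.out c =
            Quotient.out (x • c) * ((⟨_, h3⟩ : R) : FreeGroup (Fin n) ⧸ L) := by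
          show _ = Quotient.out (x • c) * ((Quotient.out (x • c))⁻¹ * (x * Quotient.out c))
          group
        rw [h4, map_mul, MulAut.mul_apply, hconj1]
      have hNc : ∀ x : FreeGroup (Fin n) ⧸ L, MulAut.conjNormal x N = N := by
        intro x
        show MulAut.conjNormal x (∏ c : (FreeGroup (Fin n) ⧸ L) ⧸ R,
          MulAut.conjNormal (Quotient.out c) r) = _
        rw [map_prod]
        refine Fintype.prod_equiv (MulAction.toPerm x) _ _ fun c => ?_
        rw [← MulAut.mul_apply, ← map_mul, hout]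
        rfl
      have hβN : β (N : FreeGroup (Fin n) ⧸ L) = w := by
        have h1 : (N : FreeGroup (Fin n) ⧸ L) = R.subtype N := rfl
        have h2 : ∀ c : (FreeGroup (Fin n) ⧸ L) ⧸ R,
            (β.comp R.subtype) (MulAut.conjNormal (Quotient.out c) r) = w0 ^ g := by
          intro c
          show β ((MulAut.conjNormal (Quotient.out c) r : R) : FreeGroup (Fin n) ⧸ L) = _
          rw [MulAut.conjNormal_apply, map_mul, map_mul, map_inv, mul_comm (β _) (β _),
            mul_assoc, mul_inv_cancel, mul_one]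
          show β (q ^ R.index) = _
          rw [map_pow, hq, hRindex]
        have h3 : (β.comp R.subtype) N = ∏ _c : (FreeGroup (Fin n) ⧸ L) ⧸ R, w0 ^ g := by
          show (β.comp R.subtype) (∏ c : (FreeGroup (Fin n) ⧸ L) ⧸ R,
            MulAut.conjNormal (Quotient.out c) r) = _
          rw [map_prod]
          exact Finset.prod_congr rfl fun c _ => h2 c
        have h4 : Fintype.card ((FreeGroup (Fin n) ⧸ L) ⧸ R) = g := by
          rw [← Nat.card_eq_fintype_card]
          exact hRindex
        rw [h1]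
        show (β.comp R.subtype) N = w
        rw [h3, Finset.prod_const, Finset.card_univ, h4, ← pow_mul, hw0']
      refine ⟨⟨N, N.2, ?_⟩, hβN⟩
      refine Subgroup.mem_center_iff.2 ?_
      intro x
      have h1 := congrArg Subtype.val (hNc x)
      rw [MulAut.conjNormal_apply] at h1
      exact (mul_inv_eq_iff_eq_mul.1 h1)
  refine exists_supp_hall L R hcoR ?_
  rw [← hZ, hZcard, hRcard, ← pow_add]
  congr 1
  obtain ⟨j, hj⟩ : ∃ j, g = j + 1 := ⟨g - 1, by omega⟩
  rw [hρ, hj, Nat.add_sub_cancel]
  obtain ⟨i, rfl⟩ : ∃ i, n = i + 1 := ⟨n - 1, by omega⟩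
  simp only [Nat.add_sub_cancel]
  ring

end Pool.Agent.Helper741_OutEmb
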