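import Mathlib

set_option autoImplicit false

/-!
# Outer automorphism groups of free groups and the set `E(n)`
-/

namespace Pool.Agent.Helper741_OutEmb

/-- The subgroup of inner automorphisms of `G`. -/
def Inn (G : Type) [Group G] : Subgroup (MulAut G) := (MulAut.conj : G →* MulAut G).range

lemma conj_conj {G : Type} [Group G] (φ : MulAut G) (g : G) :
    φ * MulAut.conj g * φ⁻¹ = MulAut.conj (φ g) := by
  ext x
  simp [MulAut.mul_apply, MulAut.conj_apply]

instance (G : Type) [Group G] : (Inn G).Normal := by
  constructor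
  rintro _ ⟨g, rfl⟩ φ
  exact ⟨φ g, (conj_conj φ g).symm⟩

/-- The outer automorphism group `Aut(G) / Inn(G)`. -/
abbrev Out (G : Type) [Group G] : Type := MulAut G ⧸ Inn G

/-- `E(n)` is the set of all `m ≥ 1` such that there is an injective homomorphism
`Out(F_n) → Out(F_m)`. -/
def E (n : ℕ) : Set ℕ :=
  {m | 1 ≤ m ∧ ∃ φ : Out (FreeGroup (Fin n)) →* Out (FreeGroup (Fin m)), Function.Injective φ}

end Pool.Agent.Helper741_OutEmb
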