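import Pool.Agent.Helper741_OutEmb.Defs

set_option autoImplicit false

/-!
# Embeddings of outer automorphism groups from supplements of the inner automorphisms
-/

namespace Pool.Agent.Helper741_OutEmb

section

variable {G : Type} [Group G] (A : Subgroup (MulAut G))

/-- The elements of `G` whose inner automorphism lies in `A`. -/
def Ker : Subgroup G := A.comap MulAut.conj

variable {A}

lemma mem_Ker {g : G} : g ∈ Ker A ↔ MulAut.conj g ∈ A := Iff.rfl

lemma map_mem_Ker {a : MulAut G} (ha : a ∈ A) {k : G} (hk : k ∈ Ker A) : a k ∈ Ker A := by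
  rw [mem_Ker, ← conj_conj]
  exact A.mul_mem (A.mul_mem ha hk) (A.inv_mem ha)

variable (A)

/-- The action of `A` on `Ker A`. -/
def res : A →* MulAut (Ker A) where
  toFun a :=
    { toFun := fun k => ⟨a.1 k.1, map_mem_Ker a.2 k.2⟩
      invFun := fun k => ⟨a.1⁻¹ k.1, map_mem_Ker (A.inv_mem a.2) k.2⟩
      left_inv := fun k => Subtype.ext (by simp)
      right_inv := fun k => Subtype.ext (by simp)
      map_mul' := fun x y => Subtype.ext (by simp) }
  map_one' := by ext; rfl
  map_mul' a b := by ext; rfl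

lemma res_coe (a : A) (k : Ker A) : ((res A a k : Ker A) : G) = a.1 k.1 := rfl

/-- The restriction of the projection to the outer automorphism group. -/
def pr : A →* Out G := (QuotientGroup.mk' (Inn G)).comp A.subtype

/-- The action of `A` on `Ker A`, up to inner automorphisms. -/
def resOut : A →* Out (Ker A) := (QuotientGroup.mk' (Inn (Ker A))).comp (res A)

variable {A}

lemma pr_surj (hA : A ⊔ Inn G = ⊤) : Function.Surjective (pr A) := by
  intro o
  obtain ⟨φ, rfl⟩ := QuotientGroup.mk'_surjective _ o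
  have hφ : φ ∈ A ⊔ Inn G := hA ▸ Subgroup.mem_top φ
  obtain ⟨a, ha, i, hi, rfl⟩ := Subgroup.mem_sup_of_normal_right.1 hφ
  refine ⟨⟨a, ha⟩, ?_⟩
  show QuotientGroup.mk' (Inn G) a = QuotientGroup.mk' (Inn G) (a * i)
  rw [map_mul, (QuotientGroup.eq_one_iff i).2 hi |> (show QuotientGroup.mk' (Inn G) i = 1 from ·),
    mul_one]

lemma mem_ker_pr (a : A) : a ∈ (pr A).ker ↔ ∃ k ∈ Ker A, a.1 = MulAut.conj k := by
  rw [MonoidHom.mem_ker]
  change ((a.1 : MulAut G) : MulAut G ⧸ Inn G) = 1 ↔ _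
  rw [QuotientGroup.eq_one_iff]
  constructor
  · rintro ⟨k, hk⟩
    refine ⟨k, ?_, hk.symm⟩
    rw [mem_Ker, hk]
    exact a.2
  · rintro ⟨k, _, hk⟩
    exact ⟨k, hk.symm⟩

lemma mem_ker_resOut [IsMulTorsionFree G] (hK : (Ker A).FiniteIndex) (a : A) :
    a ∈ (resOut A).ker ↔ ∃ k ∈ Ker A, a.1 = MulAut.conj k := by
  rw [MonoidHom.mem_ker]
  change ((res A a : MulAut (Ker A)) : MulAut (Ker A) ⧸ Inn (Ker A)) = 1 ↔ _
  rw [QuotientGroup.eq_one_iff]
  constructor
  · rintro ⟨k, hk⟩
    refine ⟨k.1, k.2, ?_⟩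
    have key : ∀ x ∈ Ker A, a.1 x = k.1 * x * k.1⁻¹ := by
      intro x hx
      have h1 := DFunLike.congr_fun hk ⟨x, hx⟩
      have h2 := congrArg Subtype.val h1
      rw [res_coe] at h2
      exact h2.symm
    ext f
    obtain ⟨N, hN, hf⟩ : ∃ N : ℕ, 0 < N ∧ f ^ N ∈ Ker A := by
      obtain ⟨N, hN, _, hf⟩ := Subgroup.exists_pow_mem_of_index_ne_zero hK.index_ne_zero f
      exact ⟨N, hN, hf⟩
    apply (pow_left_injective (M := G) hN.ne')
    show (a.1 f) ^ N = (MulAut.conj k.1 f) ^ N
    rw [← map_pow, ← map_pow, key _ hf]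
    rfl
  · rintro ⟨k, hk, hak⟩
    refine ⟨⟨k, hk⟩, ?_⟩
    ext x
    rw [res_coe, hak]
    rfl

/-- If `A` is a subgroup of `Aut(G)` with `A · Inn(G) = Aut(G)`, meeting the inner automorphisms
in the subgroup `Ker A` of finite index, and if roots are unique in `G`, then `Out(G)` embeds in
`Out(Ker A)`. -/
theorem exists_emb_ker [IsMulTorsionFree G] (hA : A ⊔ Inn G = ⊤) (hK : (Ker A).FiniteIndex) :
    ∃ φ : Out G →* Out (Ker A), Function.Injective φ := by
  have hker : (pr A).ker = (resOut A).ker := by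
    ext a
    rw [mem_ker_pr, mem_ker_resOut hK]
  let e := QuotientGroup.quotientKerEquivOfSurjective (pr A) (pr_surj hA)
  let f : A ⧸ (pr A).ker →* Out (Ker A) := QuotientGroup.lift (pr A).ker (resOut A) (by
    intro x hx
    rw [hker] at hx
    exact hx)
  refine ⟨f.comp e.symm.toMonoidHom, ?_⟩
  have hf : Function.Injective f := by
    rw [injective_iff_map_eq_one]
    intro x hx
    obtain ⟨a, rfl⟩ := QuotientGroup.mk_surjective x
    rw [QuotientGroup.eq_one_iff, hker]
    exact hx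
  exact hf.comp e.symm.injective

end

/-- Isomorphic groups have isomorphic outer automorphism groups. -/
theorem exists_out_equiv {G H : Type} [Group G] [Group H] (e : G ≃* H) :
    ∃ φ : Out G →* Out H, Function.Injective φ := by
  let c : MulAut G ≃* MulAut H := MulAut.congr e
  have hc : ∀ g : G, c (MulAut.conj g) = MulAut.conj (e g) := by
    intro g
    ext x
    simp [c, MulAut.congr]
  have hle : Inn G ≤ (Inn H).comap c.toMonoidHom := by
    rintro _ ⟨g, rfl⟩
    exact ⟨e g, (hc g).symm⟩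
  refine ⟨QuotientGroup.map (Inn G) (Inn H) c.toMonoidHom hle, ?_⟩
  rw [injective_iff_map_eq_one]
  intro x hx
  obtain ⟨a, rfl⟩ := QuotientGroup.mk_surjective x
  rw [QuotientGroup.map_mk, QuotientGroup.eq_one_iff] at hx
  rw [QuotientGroup.eq_one_iff]
  obtain ⟨h, hh⟩ := hx
  refine ⟨e.symm h, ?_⟩
  apply c.injective
  rw [hc, e.apply_symm_apply]
  exact hh

end Pool.Agent.Helper741_OutEmb
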