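import Pool.Agent.Helper741_OutEmb.NielsenTwo
import Pool.Agent.Helper741_OutEmb.Emb

set_option autoImplicit false
set_option linter.unusedSectionVars false

/-!
# `Out(F_2)` embeds in `Out(F_m)` for all `m ≥ 4`
-/

namespace Pool.Agent.Helper741_OutEmb

open Pool.Agent.Helper156.OF

/-! ### Stabilisation -/

section stab

variable {X κ : Type}

/-- Extension of an endomorphism fixing the additional generators. -/
def exh (f : FreeGroup X →* FreeGroup X) : FreeGroup (X ⊕ κ) →* FreeGroup (X ⊕ κ) :=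
  FreeGroup.lift (Sum.elim (fun x => FreeGroup.map Sum.inl (f (FreeGroup.of x)))
    (fun j => FreeGroup.of (Sum.inr j)))

lemma exh_inl (f : FreeGroup X →* FreeGroup X) (g : FreeGroup X) :
    exh (κ := κ) f (FreeGroup.map Sum.inl g) = FreeGroup.map Sum.inl (f g) := by
  have : (exh (κ := κ) f).comp (FreeGroup.map Sum.inl) = (FreeGroup.map Sum.inl).comp f := by
    ext x
    simp [exh]
  exact DFunLike.congr_fun this g

lemma exh_inr (f : FreeGroup X →* FreeGroup X) (j : κ) :
    exh (κ := κ) f (FreeGroup.of (Sum.inr j)) = FreeGroup.of (Sum.inr j) := by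
  simp [exh]

lemma exh_comp (f g : FreeGroup X →* FreeGroup X) :
    (exh (κ := κ) f).comp (exh g) = exh (f.comp g) := by
  apply FreeGroup.ext_hom
  rintro (x | j)
  · have h1 : (FreeGroup.of (Sum.inl x) : FreeGroup (X ⊕ κ)) =
      FreeGroup.map Sum.inl (FreeGroup.of x) := by simp
    rw [h1, MonoidHom.comp_apply, exh_inl, exh_inl, exh_inl, MonoidHom.comp_apply]
  · rw [MonoidHom.comp_apply, exh_inr, exh_inr, exh_inr]

lemma exh_id : exh (κ := κ) (MonoidHom.id (FreeGroup X)) = MonoidHom.id _ := by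
  apply FreeGroup.ext_hom
  rintro (x | j)
  · simp [exh]
  · simp [exh]

/-- The stabilisation homomorphism. -/
def exA : MulAut (FreeGroup X) →* MulAut (FreeGroup (X ⊕ κ)) where
  toFun φ := MonoidHom.toMulEquiv (exh φ.toMonoidHom) (exh (φ⁻¹).toMonoidHom)
    (by
      rw [exh_comp]
      have : (φ⁻¹).toMonoidHom.comp φ.toMonoidHom = MonoidHom.id _ := by
        ext x; exact φ.symm_apply_apply _
      rw [this, exh_id])
    (by
      rw [exh_comp]
      have : φ.toMonoidHom.comp (φ⁻¹).toMonoidHom = MonoidHom.id _ := by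
        ext x; exact φ.apply_symm_apply _
      rw [this, exh_id])
  map_one' := by
    ext x
    change exh (MonoidHom.id _) x = x
    rw [exh_id]; rfl
  map_mul' φ ψ := by
    ext x
    change exh (φ * ψ).toMonoidHom x = exh φ.toMonoidHom (exh ψ.toMonoidHom x)
    rw [← MonoidHom.comp_apply, exh_comp]
    rfl

lemma exA_inl (φ : MulAut (FreeGroup X)) (g : FreeGroup X) :
    exA (κ := κ) φ (FreeGroup.map Sum.inl g) = FreeGroup.map Sum.inl (φ g) :=
  exh_inl φ.toMonoidHom g

/-- The retraction onto the first factor. -/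
def retr : FreeGroup (X ⊕ κ) →* FreeGroup X :=
  FreeGroup.lift (Sum.elim FreeGroup.of fun _ => 1)

lemma retr_inl (g : FreeGroup X) : retr (κ := κ) (FreeGroup.map Sum.inl g) = g := by
  have : (retr (κ := κ)).comp (FreeGroup.map Sum.inl) = MonoidHom.id (FreeGroup X) := by
    ext x
    simp [retr]
  exact DFunLike.congr_fun this g

end stab

/-! ### The action -/

/-- The projection `[x] ↦ x`. -/
def p4 : FreeGroup L2 →* F2 := FreeGroup.lift gl

lemma p4_o (x : L2) : p4 (o x) = gl x := by simp [p4, o]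

lemma p4_surj : Function.Surjective p4 := by
  intro g
  induction g using FreeGroup.induction_on with
  | C1 => exact ⟨1, map_one _⟩
  | of i => exact ⟨o (i, true), p4_o _⟩
  | inv_of i ih => exact ⟨(o (i, true))⁻¹, by rw [map_inv, p4_o]; rfl⟩
  | mul x y hx hy =>
    obtain ⟨a, rfl⟩ := hx
    obtain ⟨b, rfl⟩ := hy
    exact ⟨a * b, map_mul _ _ _⟩

lemma equi_toAut (w : SP (Fin 2)) (y : FreeGroup L2) :
    Abelianization.of (p4 (w4 w y)) = mu (toAut w) (Abelianization.of (p4 y)) := by
  have : ((Abelianization.of.comp p4).comp (w4 w).toMonoidHom) =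
      (mu (toAut w)).comp (Abelianization.of.comp p4) := by
    apply hom_ext_o
    intro x
    change Abelianization.of (p4 (w4 w (o x))) = mu (toAut w) (Abelianization.of (p4 (o x)))
    rw [w4_o, p4_o, p4_o]
    exact (mu_tw w x).symm
  exact DFunLike.congr_fun this y

lemma equi_eAut (x a : L2) (h : x.1 ≠ a.1) (y : FreeGroup L2) :
    Abelianization.of (p4 (e4 x a y)) = mu (eAut x a) (Abelianization.of (p4 y)) := by
  have : ((Abelianization.of.comp p4).comp (e4 x a).toMonoidHom) =
      (mu (eAut x a)).comp (Abelianization.of.comp p4) := by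
    apply hom_ext_o
    intro y
    change Abelianization.of (p4 (e4 x a (o y))) = mu (eAut x a) (Abelianization.of (p4 (o y)))
    have hax : a ≠ x := fun e => h (e ▸ rfl)
    have hanx : a ≠ nv x := fun e => h (by rw [e]; rfl)
    have hx := mu_eAut_self h
    have ha := mu_eAut h a hax hanx
    have h1 : ∀ z : L2, Abelianization.of (gl z) = la z := fun z => rfl
    rw [e4_o, p4_o, h1]
    rcases fin2_cases (y := y) h with e | e | e | e <;> subst e
    · rw [e4f_x h, map_mul, map_inv, p4_o, p4_o, map_mul, map_inv, h1, h1, la_nv, inv_inv, hx]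
    · rw [e4f_nx h, map_mul, map_inv, p4_o, p4_o, map_mul, map_inv, h1, h1, la_nv, map_inv, hx,
        mul_inv_rev, mul_comm]
    · rw [e4f_a h, map_inv, p4_o, map_inv, h1, la_nv, inv_inv, ha]
    · rw [e4f_na h, map_inv, p4_o, map_inv, h1, la_nv, map_inv, ha]
  exact DFunLike.congr_fun this y

theorem exists_rho : ∃ ρ : MulAut F2 →* MulAut (FreeGroup L2),
    (∀ g, ρ (MulAut.conj g) = 1) ∧
    ∀ φ y, Abelianization.of (p4 (ρ φ y)) = mu φ (Abelianization.of (p4 y)) := by
  obtain ⟨ρ, hw, he⟩ := presentation rel_e4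
  refine ⟨ρ, ?_, ?_⟩
  · intro g
    have h1 : ∀ a : L2, ρ (MulAut.conj (gl a)) = 1 := by
      intro a
      obtain ⟨x, hx⟩ : ∃ x : L2, x.1 ≠ a.1 := by
        rcases fin2_cases (y := a) xl_ne_al with e | e | e | e <;> subst e
        · exact ⟨al, by decide⟩
        · exact ⟨al, by decide⟩
        · exact ⟨xl, by decide⟩
        · exact ⟨xl, by decide⟩
      have h2 := congrArg ρ (eAut_mul_nv x (nv a) hx)
      rw [map_mul, he, he, e4_nv_left, mul_inv_cancel, gl_nv, inv_inv] at h2
      exact h2.symm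
    have h2 : ρ.comp MulAut.conj = 1 := hom_ext_gl fun a => h1 a
    exact DFunLike.congr_fun h2 g
  · intro φ
    have hφ := nielsen_generation φ
    induction hφ using Subgroup.closure_induction with
    | mem s hs =>
      intro y
      rcases hs with ⟨w, rfl⟩ | ⟨x, a, h, rfl⟩
      · rw [hw]; exact equi_toAut w y
      · rw [he]; exact equi_eAut x a h y
    | one =>
      intro y
      rw [map_one, mu_one]; rfl
    | mul φ ψ _ _ h1 h2 =>
      intro y
      rw [map_mul, MulAut.mul_apply, h1, h2, mu_mul]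
    | inv φ _ h1 =>
      intro y
      have h2 := h1 (ρ φ⁻¹ y)
      rw [← MulAut.mul_apply, ← map_mul, mul_inv_cancel, map_one, MulAut.one_apply] at h2
      rw [h2, ← mu_mul, inv_mul_cancel, mu_one]

/-- `Out(F_2)` embeds in the outer automorphism group of the free group on the four letters and
any additional generators. -/
theorem exists_emb_two (κ : Type) :
    ∃ f : Out F2 →* Out (FreeGroup (L2 ⊕ κ)), Function.Injective f := by
  obtain ⟨ρ, h1, h2⟩ := exists_rho
  let r : MulAut F2 →* Out (FreeGroup (L2 ⊕ κ)) :=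
    (QuotientGroup.mk' (Inn (FreeGroup (L2 ⊕ κ)))).comp ((exA (κ := κ)).comp ρ)
  have hle : Inn F2 ≤ r.ker := by
    rintro _ ⟨g, rfl⟩
    change QuotientGroup.mk' _ (exA (ρ (MulAut.conj g))) = 1
    rw [h1, map_one, map_one]
  refine ⟨QuotientGroup.lift (Inn F2) r hle, ?_⟩
  rw [injective_iff_map_eq_one]
  intro x hx
  obtain ⟨φ, rfl⟩ := QuotientGroup.mk_surjective x
  have hx' : r φ = 1 := hx
  have h3 : exA (κ := κ) (ρ φ) ∈ Inn (FreeGroup (L2 ⊕ κ)) := (QuotientGroup.eq_one_iff _).1 hx'
  obtain ⟨g, hg⟩ := h3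
  rw [QuotientGroup.eq_one_iff]
  apply nielsen_two
  intro z
  induction z using QuotientGroup.induction_on with
  | H u =>
    obtain ⟨y, rfl⟩ := p4_surj u
    change mu φ (Abelianization.of (p4 y)) = Abelianization.of (p4 y)
    have h4 : FreeGroup.map Sum.inl (ρ φ y) = g * FreeGroup.map Sum.inl y * g⁻¹ := by
      rw [← exA_inl, ← hg, MulAut.conj_apply]
    have h5 := congrArg (retr (κ := κ)) h4
    rw [retr_inl, map_mul, map_mul, map_inv, retr_inl] at h5
    rw [← h2, h5, map_mul, map_mul, map_inv, map_mul, map_mul, map_inv]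
    rw [mul_comm (Abelianization.of (p4 (retr g))), mul_inv_cancel_right]

theorem mem_E_two {m : ℕ} (hm : 4 ≤ m) : m ∈ E 2 := by
  obtain ⟨k, rfl⟩ := Nat.exists_eq_add_of_le hm
  refine ⟨by omega, ?_⟩
  obtain ⟨f, hf⟩ := exists_emb_two (Fin k)
  have e : L2 ⊕ Fin k ≃ Fin (4 + k) := by
    refine Fintype.equivOfCardEq ?_
    simp [L2]
  obtain ⟨h, hh⟩ := exists_out_equiv (FreeGroup.freeGroupCongr e)
  exact ⟨h.comp f, hh.comp hf⟩

end Pool.Agent.Helper741_OutEmb
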