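import Pool.Agent.Helper741_OutEmb.Char

set_option autoImplicit false
set_option linter.unusedSectionVars false

/-!
# Explicit elements of `E(n)`
-/

namespace Pool.Agent.Helper741_OutEmb

instance ab_ker_char (n q : ℕ) : (ab n q).ker.Characteristic := by
  rw [Subgroup.characteristic_iff_map_le]
  intro φ
  rw [Subgroup.map_le_iff_le_comap]
  intro f hf
  rw [Subgroup.mem_comap, MonoidHom.mem_ker]
  apply ab_eq_one
  intro l
  exact hom_eq_one n q (f := f) hf (l.comp φ.toMonoidHom)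

lemma index_ab_ker (n q : ℕ) (hq : q ≠ 0) : (ab n q).ker.index = q ^ n := by
  rw [Subgroup.index_ker, MonoidHom.range_eq_top.2 (ab_surj n q hq), Subgroup.card_top,
    card_ab n q hq]

/-- Supplements of index `k ^ ((n - 1) (q ^ n - 1))` for coprime `k`, `q`. -/
theorem exists_supp_explicit {n k q : ℕ} (hn : 1 ≤ n) (hk : k ≠ 0) (hq : q ≠ 0)
    (h : Nat.Coprime k q) :
    ∃ A : Subgroup (MulAut (FreeGroup (Fin n))), IsSupp A (k ^ ((n - 1) * (q ^ n - 1))) := by
  have h1 := exists_supp_char hn hk (ab n q).ker (by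
    rw [index_ab_ker n q hq]; exact pow_ne_zero _ hq) (by
    rw [index_ab_ker n q hq]; exact Nat.Coprime.pow_right _ h)
  rwa [index_ab_ker n q hq] at h1

lemma coprime_of_prime_lt {p m : ℕ} (hp : p.Prime) (hm : 0 < m) (h : m < p) : Nat.Coprime p m :=
  (Nat.Prime.coprime_iff_not_dvd hp).2 fun hd => absurd (Nat.le_of_dvd hm hd) (by omega)

/-- Supplements with index in residue classes. -/
theorem exists_large {n N : ℕ} (hn : 2 ≤ n) (hN : 0 < N) (r : ℕ)
    (hr : Nat.Coprime (Nat.gcd r N) (N / Nat.gcd r N)) (B : ℕ) :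
    ∃ d, B < d ∧ d ≡ r [MOD N] ∧
      ∃ A : Subgroup (MulAut (FreeGroup (Fin n))), IsSupp A d := by
  set N0 := Nat.gcd r N with hN0
  set N1 := N / N0 with hN1
  have hN0pos : 0 < N0 := Nat.gcd_pos_of_pos_right _ hN
  have hNN : N = N0 * N1 := (Nat.mul_div_cancel' (Nat.gcd_dvd_right r N)).symm
  have hN1pos : 0 < N1 := by
    rcases Nat.eq_zero_or_pos N1 with h | h
    · rw [h, mul_zero] at hNN; omega
    · exact h
  have : NeZero N1 := ⟨hN1pos.ne'⟩
  have hrN1 : Nat.Coprime r N1 := by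
    have h1 : Nat.gcd r N1 ∣ N0 := Nat.dvd_gcd (Nat.gcd_dvd_left r N1)
      ((Nat.gcd_dvd_right r N1).trans ⟨N0, by rw [hNN, mul_comm]⟩)
    have h2 : Nat.gcd r N1 ∣ N1 := Nat.gcd_dvd_right r N1
    exact Nat.eq_one_of_dvd_coprimes hr h1 h2
  -- the part divisible by `N0`
  obtain ⟨A0, hA0⟩ := exists_supp_explicit (n := n) (q := N0 + 1) (by omega) hN0pos.ne' (by omega)
    (Nat.coprime_self_add_right.2 (Nat.coprime_one_right _))
  set e0 := (n - 1) * ((N0 + 1) ^ n - 1) with he0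
  have he0pos : 0 < e0 := by
    have h1 : 2 ^ 1 ≤ (N0 + 1) ^ n := by
      calc 2 ^ 1 ≤ 2 ^ n := Nat.pow_le_pow_right (by omega) (by omega)
        _ ≤ (N0 + 1) ^ n := Nat.pow_le_pow_left (by omega) n
    exact Nat.mul_pos (by omega) (by omega)
  -- the residue class of the other part
  have hu0 : IsUnit (((N0 ^ e0 : ℕ)) : ZMod N1) :=
    (ZMod.isUnit_iff_coprime _ _).2 (Nat.Coprime.pow_left _ hr)
  have hur : IsUnit ((r : ℕ) : ZMod N1) := (ZMod.isUnit_iff_coprime _ _).2 hrN1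
  obtain ⟨u, hu⟩ := hu0
  obtain ⟨v, hv⟩ := hur
  let s : (ZMod N1)ˣ := v * u⁻¹
  obtain ⟨a, ha1, hap, ha⟩ := Nat.forall_exists_prime_gt_and_eq_mod (q := N1) s.isUnit
    (B + N0 + n + 2)
  set q := Nat.totient N1 with hq
  have hqpos : 0 < q := Nat.totient_pos.2 hN1pos
  obtain ⟨b, hb1, hbp, hb⟩ := Nat.forall_exists_prime_gt_and_eq_mod (q := N1) s.isUnit (a + q)
  have hab : Nat.Coprime a b := (coprime_of_prime_lt hbp (by omega) (by omega)).symm
  obtain ⟨A1, hA1⟩ := exists_supp_pow (n := n) (k := a) (by omega)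
    (hap.odd_of_ne_two (by omega)) (coprime_of_prime_lt hap (by omega) (by omega))
  obtain ⟨A2, hA2⟩ := exists_supp_explicit (n := n) (k := b) (q := q) (by omega) hbp.pos.ne'
    hqpos.ne' (coprime_of_prime_lt hbp hqpos (by omega))
  set e2 := (n - 1) * (q ^ n - 1) with he2
  have h12 := hA1.inf hA2 (Nat.Coprime.pow _ _ hab)
  have c0 : Nat.Coprime (N0 ^ e0) (a ^ n * b ^ e2) := by
    apply Nat.Coprime.mul_right
    · exact Nat.Coprime.pow _ _ (coprime_of_prime_lt hap hN0pos (by omega)).symm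
    · exact Nat.Coprime.pow _ _ (coprime_of_prime_lt hbp hN0pos (by omega)).symm
  have h012 := hA0.inf h12 c0
  refine ⟨N0 ^ e0 * (a ^ n * b ^ e2), ?_, ?_, _, h012⟩
  · have h1 : B < a := by omega
    have h2 : a ≤ a ^ n := Nat.le_self_pow (by omega) a
    have h3 : 0 < b ^ e2 := Nat.pow_pos hbp.pos
    have h4 : 0 < N0 ^ e0 := Nat.pow_pos hN0pos
    calc B < a := h1
      _ ≤ a ^ n := h2
      _ ≤ a ^ n * b ^ e2 := Nat.le_mul_of_pos_right _ h3
      _ ≤ N0 ^ e0 * (a ^ n * b ^ e2) := Nat.le_mul_of_pos_left _ h4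
  · rw [hNN, ← Nat.modEq_and_modEq_iff_modEq_mul hr]
    constructor
    · have h1 : N0 ∣ N0 ^ e0 * (a ^ n * b ^ e2) :=
        (dvd_pow_self N0 he0pos.ne').mul_right _
      have h2 : N0 ∣ r := Nat.gcd_dvd_left r N
      exact ((Nat.modEq_zero_iff_dvd).2 h1).trans ((Nat.modEq_zero_iff_dvd).2 h2).symm
    · rw [← ZMod.natCast_eq_natCast_iff]
      have h1 : n + e2 = 1 + q ^ n * (n - 1) := by
        have h5 : 0 < q ^ n := Nat.pow_pos hqpos
        obtain ⟨j, hj⟩ : ∃ j, q ^ n = j + 1 := ⟨q ^ n - 1, by omega⟩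
        obtain ⟨i, rfl⟩ : ∃ i, n = i + 1 := ⟨n - 1, by omega⟩
        rw [he2, hj]
        simp only [Nat.add_sub_cancel]
        ring
      have h2 : s ^ (q ^ n) = 1 := by
        have h6 : s ^ q = 1 := ZMod.pow_totient s
        obtain ⟨j, hj⟩ : q ∣ q ^ n := dvd_pow_self q (by omega)
        rw [hj, pow_mul, h6, one_pow]
      have h3 : ((s ^ n * s ^ e2 : (ZMod N1)ˣ) : ZMod N1) = (s : ZMod N1) := by
        rw [← pow_add, h1, pow_add, pow_one, pow_mul, h2, one_pow, mul_one]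
      push_cast at h3 ⊢
      rw [ha, hb, h3, ← hv]
      have hu' : (N0 : ZMod N1) ^ e0 = (u : ZMod N1) := by
        rw [hu]; push_cast; rfl
      rw [hu']
      simp only [s, Units.val_mul]
      rw [mul_comm (v : ZMod N1), ← mul_assoc, Units.mul_inv, one_mul]

end Pool.Agent.Helper741_OutEmb
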