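import Pool.Agent.Helper741_OutEmb.Supp

set_option autoImplicit false
set_option linter.unusedSectionVars false

/-!
# Supplements of the inner automorphisms from complements of abelian normal Hall subgroups
-/

namespace Pool.Agent.Helper741_OutEmb

open Subgroup MulAction MulOpposite
open scoped IsMulCommutative Pointwise

section conj

variable {Q : Type} [Group Q] [Finite Q] (R : Subgroup Q) [R.Normal] [IsMulCommutative R]

/-- The class of a complement in the set of transversals modulo the difference relation. -/
noncomputable def cls (C : Subgroup Q) (hC : IsComplement' C R) : R.QuotientDiff :=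
  Quotient.mk'' (⟨(C : Set Q), hC⟩ : R.LeftTransversal)

lemma le_stab_cls (C : Subgroup Q) (hC : IsComplement' C R) :
    C ≤ stabilizer Q (cls R C hC) := by
  intro c hc
  rw [mem_stabilizer_iff]
  show Quotient.mk'' (op c⁻¹ • (⟨(C : Set Q), hC⟩ : R.LeftTransversal)) = _
  congr 1
  apply Subtype.ext
  show (op c⁻¹ • (C : Set Q)) = (C : Set Q)
  ext x
  rw [Set.mem_smul_set]
  constructor
  · rintro ⟨y, hy, rfl⟩
    exact C.mul_mem hy (C.inv_mem hc)
  · intro hx
    exact ⟨x * c, C.mul_mem hx hc, by simp⟩

lemma stab_cls (hR : Nat.Coprime (Nat.card R) R.index) (C : Subgroup Q)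
    (hC : IsComplement' C R) : C = stabilizer Q (cls R C hC) := by
  apply Subgroup.eq_of_le_of_card_ge (le_stab_cls R C hC)
  have h1 := (isComplement'_stabilizer_of_coprime (α := cls R C hC) hR).symm.index_eq_card
  have h2 := hC.index_eq_card
  rw [← h1, ← h2]

/-- Two complements of an abelian normal Hall subgroup are conjugate. -/
theorem conj_complement (hR : Nat.Coprime (Nat.card R) R.index) (C D : Subgroup Q)
    (hC : Nat.card C = R.index) (hD : Nat.card D = R.index) :
    ∃ r ∈ R, D = C.map (MulAut.conj r).toMonoidHom := by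
  have key : ∀ C : Subgroup Q, Nat.card C = R.index → IsComplement' C R := by
    intro C hC
    apply isComplement'_of_coprime
    · rw [hC, Subgroup.index_mul_card]
    · rw [hC]; exact hR.symm
  have h1 := stab_cls R hR C (key C hC)
  have h2 := stab_cls R hR D (key D hD)
  obtain ⟨r, hr⟩ := exists_smul_eq hR (cls R C (key C hC)) (cls R D (key D hD))
  refine ⟨r.1, r.2, ?_⟩
  have hr' : (r.1 : Q) • cls R C (key C hC) = cls R D (key D hD) := hr
  rw [h2, ← hr', stabilizer_smul_eq_stabilizer_map_conj, ← h1]

end conj

section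

variable {G : Type} [Group G] (L : Subgroup G) [L.Normal]

/-- Subgroups containing `L` correspond to subgroups of the quotient. -/
lemma comap_map_mk (C : Subgroup (G ⧸ L)) : (C.comap (QuotientGroup.mk' L)).map
    (QuotientGroup.mk' L) = C :=
  Subgroup.map_comap_eq_self_of_surjective (QuotientGroup.mk'_surjective L) C

/-- **Supplements from Hall subgroups.** Let `L` be a characteristic subgroup of finite index of
`G`, and `R` an abelian normal subgroup of `Q = G / L` whose order is coprime to its index. If
`|R| = d |R ∩ Z(Q)|`, then the inner automorphisms of `G` have a supplement of index `d`. -/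
theorem exists_supp_hall [hL : L.Characteristic] [Finite (G ⧸ L)] (R : Subgroup (G ⧸ L))
    [R.Normal] [IsMulCommutative R] (hR : Nat.Coprime (Nat.card R) R.index) {d : ℕ}
    (hd : Nat.card R = d * Nat.card (R ⊓ center (G ⧸ L) : Subgroup (G ⧸ L))) :
    ∃ A : Subgroup (MulAut G), IsSupp A d := by
  obtain ⟨C, hC⟩ := exists_left_complement'_of_coprime hR
  have hcard : Nat.card C = R.index := hC.index_eq_card.symm
  set π := QuotientGroup.mk' L with hπ
  have hπs : Function.Surjective π := QuotientGroup.mk'_surjective L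
  -- the induced automorphisms of the quotient
  have hmap : ∀ φ : MulAut G, L.map (φ : G ≃* G).toMonoidHom = L := fun φ =>
    Subgroup.characteristic_iff_map_eq.1 hL φ
  let bar : MulAut G → (G ⧸ L ≃* G ⧸ L) := fun φ => QuotientGroup.congr L L φ (hmap φ)
  have hbar : ∀ φ g, bar φ (π g) = π (φ g) := fun φ g => rfl
  -- the normaliser of `C`
  let N : Subgroup (G ⧸ L) := Subgroup.normalizer (C : Set (G ⧸ L))
  have hN : ∀ q : G ⧸ L, q ∈ N ↔ C.map (MulAut.conj q).toMonoidHom = C := by
    intro q
    rw [Subgroup.mem_normalizer_iff]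
    constructor
    · intro h
      ext x
      rw [Subgroup.mem_map_equiv]
      rw [h]
      simp [MulAut.conj_symm_apply]
      group
    · intro h x
      conv_rhs => rw [← h, Subgroup.mem_map_equiv]
      simp [MulAut.conj_symm_apply]
      group
  -- the supplement
  let A : Subgroup (MulAut G) :=
    { carrier := {φ | C.map (bar φ).toMonoidHom = C}
      mul_mem' := by
        intro φ ψ hφ hψ
        have h1 : (bar (φ * ψ)).toMonoidHom = (bar φ).toMonoidHom.comp (bar ψ).toMonoidHom := by
          ext x; rfl
        show C.map (bar (φ * ψ)).toMonoidHom = C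
        rw [h1, ← Subgroup.map_map, show C.map (bar ψ).toMonoidHom = C from hψ]
        exact hφ
      one_mem' := by
        have h1 : (bar 1).toMonoidHom = MonoidHom.id _ := by
          ext x; rfl
        show C.map (bar 1).toMonoidHom = C
        rw [h1, Subgroup.map_id]
      inv_mem' := by
        intro φ hφ
        have h1 : (bar φ⁻¹).toMonoidHom.comp (bar φ).toMonoidHom = MonoidHom.id _ := by
          ext x
          show π (φ⁻¹ (φ x)) = π x
          simp
        show C.map (bar φ⁻¹).toMonoidHom = C
        conv_lhs => rw [← show C.map (bar φ).toMonoidHom = C from hφ]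
        rw [Subgroup.map_map, h1, Subgroup.map_id] }
  have hA : ∀ φ, φ ∈ A ↔ C.map (bar φ).toMonoidHom = C := fun φ => Iff.rfl
  have hbarconj : ∀ g, (bar (MulAut.conj g)).toMonoidHom = (MulAut.conj (π g)).toMonoidHom := by
    intro g
    ext x
    rfl
  have hsup : A ⊔ Inn G = ⊤ := by
    rw [eq_top_iff]
    intro φ _
    have h1 : Nat.card (C.map (bar φ).toMonoidHom) = R.index := by
      rw [← hcard]
      exact (Nat.card_congr (Subgroup.equivMapOfInjective C _ (bar φ).injective).toEquiv).symm
    obtain ⟨r, _, hr⟩ := conj_complement R hR C _ hcard h1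
    obtain ⟨g, rfl⟩ := hπs r
    have h2 : (MulAut.conj g)⁻¹ * φ ∈ A := by
      rw [hA]
      have h3 : (bar ((MulAut.conj g)⁻¹ * φ)).toMonoidHom =
          (bar (MulAut.conj g)⁻¹).toMonoidHom.comp (bar φ).toMonoidHom := by
        ext x; rfl
      rw [h3, ← Subgroup.map_map, hr, ← hbarconj, Subgroup.map_map]
      have h4 : (bar (MulAut.conj g)⁻¹).toMonoidHom.comp (bar (MulAut.conj g)).toMonoidHom =
          MonoidHom.id _ := by
        ext x
        show π ((MulAut.conj g)⁻¹ (MulAut.conj g x)) = π x
        rw [MulAut.inv_apply_self]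
      rw [h4, Subgroup.map_id]
    have h5 : φ = MulAut.conj g * ((MulAut.conj g)⁻¹ * φ) := by group
    rw [h5]
    exact (A ⊔ Inn G).mul_mem (Subgroup.mem_sup_right ⟨g, rfl⟩) (Subgroup.mem_sup_left h2)
  -- the index
  have hKer : Ker A = N.comap π := by
    ext g
    rw [mem_Ker, hA, hbarconj, Subgroup.mem_comap, hN]
  have hCN : C ≤ N := Subgroup.le_normalizer
  have hNR : N ⊔ R = ⊤ := by
    rw [eq_top_iff, ← hC.sup_eq_top]
    exact sup_le_sup_right hCN R
  have hCR : ∀ x, x ∈ C → x ∈ R → x = 1 := by
    intro x h1 h2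
    have := hC.disjoint
    rw [Subgroup.disjoint_def] at this
    exact this h1 h2
  have hinf : N ⊓ R = R ⊓ center (G ⧸ L) := by
    ext r
    rw [Subgroup.mem_inf, Subgroup.mem_inf]
    constructor
    · rintro ⟨h1, h2⟩
      refine ⟨h2, ?_⟩
      have hc : ∀ c ∈ C, r * c = c * r := by
        intro c hc
        have h3 : r * c * r⁻¹ ∈ C := (Subgroup.mem_normalizer_iff.1 h1 c).1 hc
        have h4 : r * c * r⁻¹ * c⁻¹ ∈ C := C.mul_mem h3 (C.inv_mem hc)
        have h5 : r * c * r⁻¹ * c⁻¹ ∈ R := by
          have : r * c * r⁻¹ * c⁻¹ = r * (c * r⁻¹ * c⁻¹) := by group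
          rw [this]
          exact R.mul_mem h2 (‹R.Normal›.conj_mem _ (R.inv_mem h2) c)
        have h6 := hCR _ h4 h5
        rw [mul_inv_eq_one, mul_inv_eq_iff_eq_mul] at h6
        exact h6
      rw [Subgroup.mem_center_iff]
      intro g
      have hg : g ∈ C ⊔ R := by rw [hC.sup_eq_top]; exact Subgroup.mem_top _
      obtain ⟨c, hc', s, hs, rfl⟩ := Subgroup.mem_sup_of_normal_right.1 hg
      have hrs : s * r = r * s := by
        have := mul_comm (⟨s, hs⟩ : R) ⟨r, h2⟩
        exact congrArg Subtype.val this
      rw [mul_assoc, hrs, ← mul_assoc, ← hc c hc', mul_assoc]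
    · rintro ⟨h1, h2⟩
      refine ⟨?_, h1⟩
      rw [Subgroup.mem_normalizer_iff]
      intro x
      have : r * x * r⁻¹ = x := by
        rw [← Subgroup.mem_center_iff.1 h2 x]
        group
      rw [this]
  have hidx : (Ker A).index = d := by
    rw [hKer, Subgroup.index_comap_of_surjective _ hπs, ← relIndex_eq_index N R hNR]
    have h1 : (N.subgroupOf R).index * Nat.card (N.subgroupOf R) = Nat.card R :=
      Subgroup.index_mul_card _
    have h2 : Nat.card (N.subgroupOf R) = Nat.card (R ⊓ center (G ⧸ L) : Subgroup (G ⧸ L)) := by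
      rw [← hinf]
      rw [← Subgroup.inf_subgroupOf_right]
      exact Nat.card_congr (Subgroup.subgroupOfEquivOfLe inf_le_right).toEquiv
    rw [h2, hd] at h1
    exact Nat.eq_of_mul_eq_mul_right Nat.card_pos h1
  refine ⟨A, hsup, ?_, ?_⟩
  · rw [← index_Ker hsup, hidx]
  · rintro rfl
    rw [zero_mul] at hd
    exact Nat.card_pos.ne' hd

end

end Pool.Agent.Helper741_OutEmb
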