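import Pool.Agent.Helper741_OutEmb.RankTwo
import Pool.Agent.Helper741_OutEmb.Defs

set_option autoImplicit false
set_option linter.unusedSectionVars false
set_option linter.unusedSimpArgs false
set_option linter.unusedVariables false

/-!
# Nielsen: an automorphism of `F_2` acting trivially on the abelianization is inner
-/

namespace Pool.Agent.Helper741_OutEmb

open Pool.Agent.Helper156.OF

/-- The free group of rank two. -/
abbrev F2 : Type := FreeGroup (Fin 2)

/-- The first positive letter. -/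
abbrev xl : L2 := (0, true)

/-- The second positive letter. -/
abbrev al : L2 := (1, true)

lemma xl_ne_al : xl.1 ≠ al.1 := by decide

/-- The quotient map to the outer automorphism group. -/
def qo : MulAut F2 →* Out F2 := QuotientGroup.mk' (Inn F2)

lemma qo_eq_one {φ : MulAut F2} : qo φ = 1 ↔ ∃ g : F2, MulAut.conj g = φ :=
  QuotientGroup.eq_one_iff φ

/-- Classes of signed permutations. -/
def tw : SP (Fin 2) →* Out F2 := qo.comp toAut

/-- Classes of elementary automorphisms. -/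
def te (x a : L2) : Out F2 := qo (eAut x a)

lemma eAut_mul_nv (x a : L2) (h : x.1 ≠ a.1) :
    eAut x a * eAut (nv x) a = MulAut.conj (gl a)⁻¹ := by
  have h1 : (nv x).1 ≠ a.1 := h
  apply aut_ext_gl
  intro y
  have hx : nv x ≠ x := nv_ne x
  have hax : a ≠ x := fun e => h (e ▸ rfl)
  have hanx : a ≠ nv x := fun e => h (by rw [e]; rfl)
  have hnax : nv a ≠ x := fun e => h (by rw [← e]; rfl)
  have hnanx : nv a ≠ nv x := fun e => h (by rw [nv_inj.1 e])
  rw [MulAut.mul_apply, eAut_gl, MulAut.conj_apply, inv_inv]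
  rcases fin2_cases (y := y) h with e | e | e | e <;> subst e
  · simp [eFun, h, h1, hx, hx.symm, hax, hanx, hnax, hnanx]
    group
  · simp [eFun, h, h1, hx, hx.symm, hax, hanx, hnax, hnanx]
  · simp [eFun, h, h1, hx, hx.symm, hax, hanx, hnax, hnanx]
  · simp [eFun, h, h1, hx, hx.symm, hax, hanx, hnax, hnanx]

lemma te_junk {x a : L2} (h : x.1 = a.1) : te x a = 1 := by
  unfold te
  rw [rel_aut.junk x a h, map_one]

lemma te_nv_right (x a : L2) : te x (nv a) = (te x a)⁻¹ := by
  unfold te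
  rw [rel_aut.e1, map_inv]

lemma te_nv_left (x a : L2) : te (nv x) a = (te x a)⁻¹ := by
  by_cases h : x.1 = a.1
  · rw [te_junk h, te_junk (show (nv x).1 = a.1 from h), inv_one]
  · have h1 : qo (eAut x a * eAut (nv x) a) = 1 := by
      rw [eAut_mul_nv x a h]
      exact qo_eq_one.2 ⟨_, rfl⟩
    rw [map_mul] at h1
    exact eq_inv_of_mul_eq_one_right h1

lemma tw_te (w : SP (Fin 2)) (x a : L2) :
    tw w * te x a * (tw w)⁻¹ = te ((w : Equiv.Perm L2) x) ((w : Equiv.Perm L2) a) := by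
  unfold tw te
  rw [MonoidHom.comp_apply, ← map_inv, ← map_mul, ← map_mul, rel_aut.e0]

lemma te_four {a b : L2} (h : a.1 ≠ b.1) : (te a b)⁻¹ * te b a = tw (sg a b) * te a b := by
  rw [← te_nv_left]
  unfold te tw
  rw [← map_mul, MonoidHom.comp_apply, ← map_mul]
  rw [rel_aut.e4 a b (sg a b) h sg_left (sg_right h) fun c h1 h2 => sg_other h1 h2]

/-- The monoid generated by two elementary classes. -/
def Mp : Submonoid (Out F2) := Submonoid.closure {te xl al, te al xl}

/-- Elements of the form signed permutation, positive element, signed permutation. -/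
def WPW : Set (Out F2) := {g | ∃ w w' : SP (Fin 2), ∃ p ∈ Mp, g = tw w * p * tw w'}

lemma WPW_mul {g : Out F2} (hg : g ∈ WPW) (u v : SP (Fin 2)) : tw u * g * tw v ∈ WPW := by
  obtain ⟨w, w', p, hp, rfl⟩ := hg
  refine ⟨u * w, w' * v, p, hp, ?_⟩
  rw [map_mul, map_mul]
  group

lemma Mp_WPW {p : Out F2} (hp : p ∈ Mp) : p ∈ WPW :=
  ⟨1, 1, p, hp, by rw [map_one, one_mul, mul_one]⟩

lemma te_cases {x a : L2} (h : x.1 ≠ a.1) :
    te x a = te xl al ∨ te x a = (te xl al)⁻¹ ∨ te x a = te al xl ∨ te x a = (te al xl)⁻¹ := by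
  rcases fin2_cases (y := x) xl_ne_al with e | e | e | e <;>
  rcases fin2_cases (y := a) xl_ne_al with e' | e' | e' | e' <;>
  subst e e' <;>
  first
    | exact absurd rfl h
    | (simp only [te_nv_left, te_nv_right, inv_inv, true_or, or_true])

lemma te_inv_mul {a b : L2} (h : a.1 ≠ b.1) (ha : te a b ∈ Mp) (hb : te b a ∈ Mp)
    (hgen : ∀ p ∈ Mp, p = 1 ∨ (∃ q ∈ Mp, p = te a b * q) ∨ ∃ q ∈ Mp, p = te b a * q)
    {p : Out F2} (hp : p ∈ Mp) : (te a b)⁻¹ * p ∈ WPW := by
  rcases hgen p hp with rfl | ⟨q, hq, rfl⟩ | ⟨q, hq, rfl⟩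
  · rw [mul_one, ← te_nv_left]
    have h1 := tw_te (swp a (nv a)) a b
    rw [swp_left, swp_other (Ne.symm h) (by simpa using Ne.symm h), ← map_inv] at h1
    rw [← h1]
    exact WPW_mul (Mp_WPW ha) _ _
  · rw [inv_mul_cancel_left]
    exact Mp_WPW hq
  · rw [← mul_assoc, te_four h, mul_assoc]
    have := WPW_mul (Mp_WPW (Mp.mul_mem ha hq)) (sg a b) 1
    rwa [map_one, mul_one] at this

lemma t1_mem : te xl al ∈ Mp := Submonoid.subset_closure (by simp)

lemma t2_mem : te al xl ∈ Mp := Submonoid.subset_closure (by simp)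

lemma Mp_cases (p : Out F2) (hp : p ∈ Mp) :
    p = 1 ∨ (∃ q ∈ Mp, p = te xl al * q) ∨ ∃ q ∈ Mp, p = te al xl * q := by
  induction hp using Submonoid.closure_induction_left with
  | one => exact Or.inl rfl
  | mul_left x hx y hy _ =>
    rcases hx with rfl | hx
    · exact Or.inr (Or.inl ⟨y, hy, rfl⟩)
    · rw [Set.mem_singleton_iff] at hx
      subst hx
      exact Or.inr (Or.inr ⟨y, hy, rfl⟩)

lemma te_mul_Mp (x a : L2) {p : Out F2} (hp : p ∈ Mp) : te x a * p ∈ WPW := by
  by_cases h : x.1 = a.1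
  · rw [te_junk h, one_mul]
    exact Mp_WPW hp
  · rcases te_cases h with e | e | e | e <;> rw [e]
    · exact Mp_WPW (Mp.mul_mem t1_mem hp)
    · exact te_inv_mul xl_ne_al t1_mem t2_mem Mp_cases hp
    · exact Mp_WPW (Mp.mul_mem t2_mem hp)
    · exact te_inv_mul xl_ne_al.symm t2_mem t1_mem
        (fun p hp => by
          rcases Mp_cases p hp with h | h | h
          · exact Or.inl h
          · exact Or.inr (Or.inr h)
          · exact Or.inr (Or.inl h)) hp

lemma te_mul_WPW (x a : L2) {g : Out F2} (hg : g ∈ WPW) : te x a * g ∈ WPW := by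
  obtain ⟨w, w', p, hp, rfl⟩ := hg
  have h1 := tw_te w ((w : Equiv.Perm L2)⁻¹ x) ((w : Equiv.Perm L2)⁻¹ a)
  rw [show (w : Equiv.Perm L2) ((w : Equiv.Perm L2)⁻¹ x) = x from Equiv.apply_symm_apply _ _,
    show (w : Equiv.Perm L2) ((w : Equiv.Perm L2)⁻¹ a) = a from Equiv.apply_symm_apply _ _] at h1
  rw [← h1]
  have h2 : tw w * te ((w : Equiv.Perm L2)⁻¹ x) ((w : Equiv.Perm L2)⁻¹ a) * (tw w)⁻¹ *
      (tw w * p * tw w') =
      tw w * (te ((w : Equiv.Perm L2)⁻¹ x) ((w : Equiv.Perm L2)⁻¹ a) * p) * tw w' := by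
    group
  rw [h2]
  exact WPW_mul (te_mul_Mp _ _ hp) _ _

lemma mem_WPW (φ : MulAut F2) : qo φ ∈ WPW := by
  have hφ := nielsen_generation φ
  induction hφ using Subgroup.closure_induction_left with
  | one => rw [map_one]; exact Mp_WPW Mp.one_mem
  | mul_left s hs y _ ih =>
    rw [map_mul]
    rcases hs with ⟨w, rfl⟩ | ⟨x, a, _, rfl⟩
    · have := WPW_mul ih w 1
      rwa [map_one, mul_one] at this
    · exact te_mul_WPW x a ih
  | inv_mul_cancel s hs y _ ih =>
    rw [map_mul]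
    rcases hs with ⟨w, rfl⟩ | ⟨x, a, _, rfl⟩
    · have := WPW_mul ih w⁻¹ 1
      rw [map_one, mul_one, map_inv] at this
      rw [map_inv]
      exact this
    · rw [map_inv]
      have := te_mul_WPW x (nv a) ih
      rwa [te_nv_right] at this

/-! ### The action on the abelianization -/

/-- Abelianization of the free group of rank two. -/
abbrev A2 : Type := Abelianization F2

/-- The action on the abelianization. -/
def mu (φ : MulAut F2) : A2 →* A2 := Abelianization.map φ.toMonoidHom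

lemma mu_of (φ : MulAut F2) (g : F2) : mu φ (Abelianization.of g) = Abelianization.of (φ g) := by
  simp [mu, Abelianization.map_of]

lemma mu_mul (φ ψ : MulAut F2) (z : A2) : mu (φ * ψ) z = mu φ (mu ψ z) := by
  induction z using QuotientGroup.induction_on with
  | H g =>
    change mu (φ * ψ) (Abelianization.of g) = mu φ (mu ψ (Abelianization.of g))
    rw [mu_of, mu_of, mu_of, MulAut.mul_apply]

lemma mu_conj (g : F2) (z : A2) : mu (MulAut.conj g) z = z := by
  induction z using QuotientGroup.induction_on with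
  | H h =>
    change mu (MulAut.conj g) (Abelianization.of h) = Abelianization.of h
    rw [mu_of, MulAut.conj_apply, map_mul, map_mul, map_inv, mul_comm (Abelianization.of g),
      mul_inv_cancel_right]

lemma mu_one (z : A2) : mu 1 z = z := by
  have := mu_conj 1 z
  rwa [map_one] at this

/-- The coordinates on the abelianization. -/
def cd : A2 →* Multiplicative (Fin 2 → ℤ) :=
  Abelianization.lift (FreeGroup.lift fun i => Multiplicative.ofAdd (Pi.single i 1))

/-- The letter in the abelianization. -/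
def la (x : L2) : A2 := Abelianization.of (gl x)

lemma la_nv (x : L2) : la (nv x) = (la x)⁻¹ := by simp [la]

lemma cd_x : cd (la xl) = Multiplicative.ofAdd (Pi.single 0 1) := by
  simp [cd, la, gl_true]

lemma cd_a : cd (la al) = Multiplicative.ofAdd (Pi.single 1 1) := by
  simp [cd, la, gl_true]

lemma cd_pow (i j : ℤ) : cd (la xl ^ i * la al ^ j) = Multiplicative.ofAdd ![i, j] := by
  rw [map_mul, map_zpow, map_zpow, cd_x, cd_a]
  apply Multiplicative.toAdd.injective
  ext k
  fin_cases k <;> simp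

lemma pow_inj {i j k l : ℤ} (h : la xl ^ i * la al ^ j = la xl ^ k * la al ^ l) :
    i = k ∧ j = l := by
  have := congrArg cd h
  rw [cd_pow, cd_pow] at this
  have h2 := Multiplicative.ofAdd.injective this
  exact ⟨congrFun h2 0, congrFun h2 1⟩

lemma mu_gl (φ : MulAut F2) (y : L2) : mu φ (la y) = Abelianization.of (φ (gl y)) := mu_of φ _

lemma mu_tw (w : SP (Fin 2)) (y : L2) : mu (toAut w) (la y) = la ((w : Equiv.Perm L2) y) := by
  rw [mu_gl, toAut_gl]; rfl

lemma mu_eAut {x a : L2} (h : x.1 ≠ a.1) (y : L2) (hy : y ≠ x) (hy' : y ≠ nv x) :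
    mu (eAut x a) (la y) = la y := by
  rw [mu_gl, eAut_gl, eFun, if_neg h, if_neg hy, if_neg hy']; rfl

lemma mu_eAut_self {x a : L2} (h : x.1 ≠ a.1) : mu (eAut x a) (la x) = la x * la a := by
  rw [mu_gl, eAut_gl, eFun, if_neg h, if_pos rfl, map_mul]; rfl

lemma mu_T1 (i j : ℤ) : mu (eAut xl al) (la xl ^ i * la al ^ j) = la xl ^ i * la al ^ (i + j) := by
  rw [map_mul, map_zpow, map_zpow, mu_eAut_self xl_ne_al, mu_eAut xl_ne_al al (by decide) (by decide),
    mul_zpow, mul_assoc, zpow_add]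

lemma mu_T2 (i j : ℤ) : mu (eAut al xl) (la xl ^ i * la al ^ j) = la xl ^ (i + j) * la al ^ j := by
  rw [map_mul, map_zpow, map_zpow, mu_eAut_self xl_ne_al.symm,
    mu_eAut xl_ne_al.symm xl (by decide) (by decide), mul_zpow, zpow_add, mul_assoc,
    mul_comm (la al ^ j)]

/-- Positive elements, lifted to automorphisms, increase the sum of positive coordinates. -/
lemma Mp_lift (p : Out F2) (hp : p ∈ Mp) : ∃ φ : MulAut F2, qo φ = p ∧
    ((φ = 1) ∨ ∃ i j : ℤ, 1 ≤ i ∧ 1 ≤ j ∧ 3 ≤ i + j ∧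
      mu φ (la xl ^ (1 : ℤ) * la al ^ (1 : ℤ)) = la xl ^ i * la al ^ j) := by
  induction hp using Submonoid.closure_induction_left with
  | one => exact ⟨1, map_one _, Or.inl rfl⟩
  | mul_left s hs y hy ih =>
    obtain ⟨φ, rfl, h⟩ := ih
    have key : ∃ i j : ℤ, 1 ≤ i ∧ 1 ≤ j ∧
        mu φ (la xl ^ (1 : ℤ) * la al ^ (1 : ℤ)) = la xl ^ i * la al ^ j := by
      rcases h with rfl | ⟨i, j, h1, h2, h3, h4⟩
      · exact ⟨1, 1, le_rfl, le_rfl, mu_one _⟩
      · exact ⟨i, j, h1, h2, h4⟩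
    obtain ⟨i, j, h1, h2, h4⟩ := key
    rcases hs with rfl | hs
    · refine ⟨eAut xl al * φ, map_mul _ _ _, Or.inr ⟨i, i + j, h1, by omega, by omega, ?_⟩⟩
      rw [mu_mul, h4, mu_T1]
    · rw [Set.mem_singleton_iff] at hs
      subst hs
      refine ⟨eAut al xl * φ, map_mul _ _ _, Or.inr ⟨i + j, j, by omega, h2, by omega, ?_⟩⟩
      rw [mu_mul, h4, mu_T2]

lemma cd_la (x : L2) : cd (la x) = Multiplicative.ofAdd (ev ℤ x) := by
  rcases fin2_cases (y := x) xl_ne_al with e | e | e | e <;> subst e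
  · rw [cd_x]
    apply congrArg Multiplicative.ofAdd
    ext k
    fin_cases k <;> simp [ev]
  · rw [la_nv, map_inv, cd_x, ev_nv, ofAdd_neg]
    apply congrArg (fun z => (Multiplicative.ofAdd z)⁻¹)
    ext k
    fin_cases k <;> simp [ev]
  · rw [cd_a]
    apply congrArg Multiplicative.ofAdd
    ext k
    fin_cases k <;> simp [ev]
  · rw [la_nv, map_inv, cd_a, ev_nv, ofAdd_neg]
    apply congrArg (fun z => (Multiplicative.ofAdd z)⁻¹)
    ext k
    fin_cases k <;> simp [ev]

lemma la_inj {x y : L2} (h : la x = la y) : x = y := by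
  have h1 : ev ℤ x = ev ℤ y := by
    apply Multiplicative.ofAdd.injective
    rw [← cd_la, ← cd_la, h]
  have h2 := congrArg (co x) h1
  rw [co_ev, co_ev, dl_self] at h2
  unfold dl at h2
  by_contra hc
  rw [if_neg hc] at h2
  split_ifs at h2 <;> omega

lemma la_mul_cases (x y : L2) (h : x.1 ≠ y.1) :
    ∃ i j : ℤ, i ≤ 1 ∧ j ≤ 1 ∧ la x * la y = la xl ^ i * la al ^ j := by
  rcases fin2_cases (y := x) xl_ne_al with e | e | e | e <;>
  rcases fin2_cases (y := y) xl_ne_al with e' | e' | e' | e' <;>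
  subst e e' <;>
  first
    | exact absurd rfl h
    | (refine ⟨1, 1, by norm_num, by norm_num, ?_⟩; simp; done)
    | (refine ⟨1, -1, by norm_num, by norm_num, ?_⟩; simp [la_nv]; done)
    | (refine ⟨-1, 1, by norm_num, by norm_num, ?_⟩; simp [la_nv]; done)
    | (refine ⟨-1, -1, by norm_num, by norm_num, ?_⟩; simp [la_nv]; done)
    | (refine ⟨1, 1, by norm_num, by norm_num, ?_⟩; rw [mul_comm]; simp; done)
    | (refine ⟨1, -1, by norm_num, by norm_num, ?_⟩; rw [mul_comm]; simp [la_nv]; done)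
    | (refine ⟨-1, 1, by norm_num, by norm_num, ?_⟩; rw [mul_comm]; simp [la_nv]; done)
    | (refine ⟨-1, -1, by norm_num, by norm_num, ?_⟩; rw [mul_comm]; simp [la_nv]; done)

/-- Nielsen: an automorphism of `F_2` acting trivially on the abelianization is inner. -/
theorem nielsen_two (φ : MulAut F2) (h : ∀ z, mu φ z = z) : ∃ g, MulAut.conj g = φ := by
  obtain ⟨w, w', p, hp, hφ⟩ := mem_WPW φ
  obtain ⟨ψ, rfl, hψ⟩ := Mp_lift p hp
  have h1 : qo (φ⁻¹ * (toAut w * ψ * toAut w')) = 1 := by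
    rw [map_mul, map_inv, hφ, map_mul, map_mul]
    exact inv_mul_cancel _
  obtain ⟨g, hg⟩ := qo_eq_one.1 h1
  have h2 : toAut w * ψ * toAut w' = φ * MulAut.conj g := by rw [hg]; group
  have h3 : ∀ z, mu ψ z = mu (toAut (w⁻¹ * w'⁻¹)) z := by
    intro z
    have h4 : ψ = toAut w⁻¹ * (φ * MulAut.conj g) * toAut w'⁻¹ := by
      rw [← h2, map_inv, map_inv]; group
    rw [h4, mu_mul, mu_mul, mu_mul, h, mu_conj, ← mu_mul, ← map_mul]
  have hψ1 : ψ = 1 := by
    rcases hψ with h5 | ⟨i, j, hi, hj, hij, h5⟩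
    · exact h5
    · exfalso
      rw [h3, map_mul, map_zpow, map_zpow, mu_tw, mu_tw, zpow_one, zpow_one] at h5
      obtain ⟨k, l, hk, hl, h6⟩ := la_mul_cases _ _ (fst_map_ne (w⁻¹ * w'⁻¹) xl_ne_al)
      rw [h6] at h5
      have := pow_inj h5
      omega
  subst hψ1
  have h7 : w⁻¹ * w'⁻¹ = 1 := by
    apply SP_ext
    intro x
    apply la_inj
    rw [← mu_tw, ← h3, mu_one]
    rfl
  have h8 : w = w'⁻¹ := by
    rw [mul_eq_one_iff_inv_eq, inv_inv] at h7
    exact h7
  apply qo_eq_one.1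
  rw [hφ, map_one, mul_one, ← map_mul, h8, inv_mul_cancel, map_one]

end Pool.Agent.Helper741_OutEmb
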