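import Pool.Agent.Helper741_OutEmb.Emb
import Pool.Agent.H749R3.NS

set_option autoImplicit false

/-!
# The rank of a subgroup of finite index of a free group, and embeddings of `Out(F_n)`
-/

namespace Pool.Agent.Helper741_OutEmb

/-- Number of homomorphisms from a finitely generated free group to the group of order two. -/
lemma card_hom_free (X : Type) (A : Type) [CommGroup A] :
    Nat.card (FreeGroup X →* A) = Nat.card (X → A) :=
  Nat.card_congr FreeGroup.lift.symm

/-- **Schreier's formula.** A subgroup of index `d` of the free group of rank `n ≥ 1` is free of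
rank `1 + (n - 1) d`. -/
theorem schreier {n : ℕ} (hn : 1 ≤ n) (K : Subgroup (FreeGroup (Fin n))) (hK : K.index ≠ 0) :
    Nonempty (K ≃* FreeGroup (Fin (1 + (n - 1) * K.index))) := by
  have hfree : IsFreeGroup K := inferInstance
  let X := IsFreeGroup.Generators K
  let e : K ≃* FreeGroup X := (IsFreeGroup.toFreeGroup K)
  have h2 : Nat.card (Multiplicative (ZMod 2)) = 2 := by
    rw [Nat.card_congr Multiplicative.toAdd, Nat.card_zmod]
  have h := H749.Box.card_hom K (Multiplicative (ZMod 2)) hK
  have hc : Nat.card (K →* Multiplicative (ZMod 2)) = Nat.card (X → Multiplicative (ZMod 2)) := by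
    rw [← card_hom_free]
    exact Nat.card_congr (e.monoidHomCongrLeft.toEquiv)
  rw [hc, h2] at h
  have hfin : Finite X := by
    by_contra hinf
    rw [not_finite_iff_infinite] at hinf
    have : Nat.card (X → Multiplicative (ZMod 2)) = 0 := by
      have : Nontrivial (Multiplicative (ZMod 2)) := ⟨1, Multiplicative.ofAdd 1, by decide⟩
      have : Infinite (X → Multiplicative (ZMod 2)) := Pi.infinite_of_left
      exact Nat.card_eq_zero_of_infinite
    rw [this, zero_mul] at h
    have : 0 < 2 ^ (n * K.index + 1) := by positivity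
    omega
  rw [Nat.card_fun, h2, ← pow_add] at h
  have h3 := Nat.pow_right_injective (le_refl 2) h
  have h4 : Nat.card X = 1 + (n - 1) * K.index := by
    obtain ⟨k, rfl⟩ : ∃ k, n = k + 1 := ⟨n - 1, by omega⟩
    have : (k + 1) * K.index + 1 = Nat.card X + K.index := h3.symm
    rw [add_mul, one_mul] at this
    simp only [Nat.add_sub_cancel]
    omega
  have : Fintype X := Fintype.ofFinite X
  have e2 : X ≃ Fin (1 + (n - 1) * K.index) := Fintype.equivFinOfCardEq (by
    rw [← Nat.card_eq_fintype_card, h4])
  exact ⟨e.trans (FreeGroup.freeGroupCongr e2)⟩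

section

variable {G : Type} [Group G]

/-- `A` is a supplement of `Inn(G)` in `Aut(G)`, of finite index `d`. -/
structure IsSupp (A : Subgroup (MulAut G)) (d : ℕ) : Prop where
  sup : A ⊔ Inn G = ⊤
  index : A.index = d
  pos : d ≠ 0

lemma relIndex_eq_index {H : Type} [Group H] (A N : Subgroup H) [N.Normal] (hA : A ⊔ N = ⊤) :
    A.relIndex N = A.index := by
  let f : N ⧸ A.subgroupOf N → H ⧸ A :=
    Quotient.map' (fun x => x.1) (by
      intro x y hxy
      rw [QuotientGroup.leftRel_apply] at hxy ⊢
      exact hxy)
  have hf : Function.Bijective f := by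
    constructor
    · intro x y
      induction x using QuotientGroup.induction_on with
      | H x =>
        induction y using QuotientGroup.induction_on with
        | H y =>
          intro hxy
          have : ((x.1 : H) : H ⧸ A) = ((y.1 : H) : H ⧸ A) := hxy
          rw [QuotientGroup.eq] at this ⊢
          exact this
    · intro y
      induction y using QuotientGroup.induction_on with
      | H y =>
        have hy : y⁻¹ ∈ A ⊔ N := hA ▸ Subgroup.mem_top _
        obtain ⟨a, ha, i, hi, hai⟩ := Subgroup.mem_sup_of_normal_right.1 hy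
        refine ⟨((⟨i⁻¹, N.inv_mem hi⟩ : N) : N ⧸ A.subgroupOf N), ?_⟩
        show ((i⁻¹ : H) : H ⧸ A) = (y : H ⧸ A)
        rw [QuotientGroup.eq, inv_inv]
        have : i * y = a⁻¹ := by
          have : y = (a * i)⁻¹ := by rw [hai, inv_inv]
          rw [this]
          group
        rw [this]
        exact A.inv_mem ha
  exact Nat.card_congr (Equiv.ofBijective f hf)

lemma index_Ker {A : Subgroup (MulAut G)} (hA : A ⊔ Inn G = ⊤) : (Ker A).index = A.index := by
  rw [Ker, Subgroup.index_comap]
  exact relIndex_eq_index A (Inn G) hA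

end

/-- **Embeddings of `Out(F_n)` from supplements.** -/
theorem mem_E_of_supp {n d : ℕ} (hn : 1 ≤ n) {A : Subgroup (MulAut (FreeGroup (Fin n)))}
    (h : IsSupp A d) : 1 + (n - 1) * d ∈ E n := by
  have hi : (Ker A).index = d := by rw [index_Ker h.sup, h.index]
  have hfi : (Ker A).FiniteIndex := ⟨by rw [hi]; exact h.pos⟩
  obtain ⟨φ, hφ⟩ := exists_emb_ker h.sup hfi
  obtain ⟨e⟩ := schreier hn (Ker A) (by rw [hi]; exact h.pos)
  rw [hi] at e
  obtain ⟨ψ, hψ⟩ := exists_out_equiv e
  exact ⟨by omega, ψ.comp φ, hψ.comp hφ⟩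

end Pool.Agent.Helper741_OutEmb
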