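import Pool.Agent.Helper741_OutEmb.Affine

set_option autoImplicit false
set_option linter.unusedSectionVars false

/-!
# `Out(F_2)` acts on the free group of rank four

The group `GL(2, ℤ)` acts on the torus fixing the origin and permuting the three points of order
two, hence on the fundamental group, free of rank four, of the torus minus these three points. In
terms of the four letters of `F_2` as free generators of `F_4` the action is given here by the
presentation of the automorphism group of `F_2`.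
-/

namespace Pool.Agent.Helper741_OutEmb

open Pool.Agent.Helper156.OF

section

/-- Letters of `F_2`. -/
abbrev L2 : Type := Lt (Fin 2)

/-- Generators of the free group on the letters. -/
abbrev o (x : L2) : FreeGroup L2 := FreeGroup.of x

/-- Signed permutations act on the free group on the letters by permuting the generators. -/
def w4 : SP (Fin 2) →* MulAut (FreeGroup L2) where
  toFun σ := FreeGroup.freeGroupCongr (σ : Equiv.Perm L2)
  map_one' := by
    ext x
    simp
  map_mul' σ τ := by
    ext x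
    simp only [Subgroup.coe_mul, MulAut.mul_apply]
    induction x using FreeGroup.induction_on with
    | C1 => simp
    | of i => simp
    | inv_of i ih => rw [map_inv, map_inv, map_inv, ih]
    | mul x y hx hy => rw [map_mul, map_mul, map_mul, hx, hy]

@[simp] lemma w4_o (σ : SP (Fin 2)) (x : L2) : w4 σ (o x) = o ((σ : Equiv.Perm L2) x) := by
  simp [w4, o]

/-- Images of the generators under the elementary maps: `[x] ↦ [x] [a⁻¹]⁻¹`,
`[x⁻¹] ↦ [x⁻¹] [a]⁻¹`, `[a] ↦ [a⁻¹]⁻¹`, `[a⁻¹] ↦ [a]⁻¹`. -/
def e4f (x a y : L2) : FreeGroup L2 :=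
  if x.1 = a.1 then o y else if y = x then o x * (o (nv a))⁻¹ else
    if y = nv x then o (nv x) * (o a)⁻¹ else (o (nv y))⁻¹

/-- The elementary endomorphisms. -/
def e4h (x a : L2) : FreeGroup L2 →* FreeGroup L2 := FreeGroup.lift (e4f x a)

lemma e4h_o (x a y : L2) : e4h x a (o y) = e4f x a y := by simp [e4h, o]

lemma fin2_cases {x a y : L2} (h : x.1 ≠ a.1) : y = x ∨ y = nv x ∨ y = a ∨ y = nv a := by
  have : y.1 = x.1 ∨ y.1 = a.1 := by
    have h1 := x.1.2
    have h2 := a.1.2
    have h3 := y.1.2
    have h4 : x.1.1 ≠ a.1.1 := fun e => h (Fin.ext e)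
    rcases (show y.1.1 = x.1.1 ∨ y.1.1 = a.1.1 by omega) with h5 | h5
    · exact Or.inl (Fin.ext h5)
    · exact Or.inr (Fin.ext h5)
  rcases this with h1 | h1
  · rcases fst_eq_iff.1 h1 with h2 | h2
    · exact Or.inl h2
    · exact Or.inr (Or.inl h2)
  · rcases fst_eq_iff.1 h1 with h2 | h2
    · exact Or.inr (Or.inr (Or.inl h2))
    · exact Or.inr (Or.inr (Or.inr h2))

section values

variable {x a : L2} (h : x.1 ≠ a.1)

include h

lemma e4f_x : e4f x a x = o x * (o (nv a))⁻¹ := by simp [e4f, h]

lemma e4f_nx : e4f x a (nv x) = o (nv x) * (o a)⁻¹ := by simp [e4f, h, nv_ne]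

lemma e4f_a : e4f x a a = (o (nv a))⁻¹ := by
  have h1 : a ≠ x := fun e => h (e ▸ rfl)
  have h2 : a ≠ nv x := fun e => h (by rw [e]; rfl)
  simp [e4f, h, h1, h2]

lemma e4f_na : e4f x a (nv a) = (o a)⁻¹ := by
  have h1 : nv a ≠ x := fun e => h (by rw [← e]; rfl)
  have h2 : nv a ≠ nv x := fun e => h (by rw [nv_inj.1 e])
  simp [e4f, h, h1, h2]

end values

lemma hom_ext_o {H : Type} [Group H] {f g : FreeGroup L2 →* H} (h : ∀ y, f (o y) = g (o y)) :
    f = g := by
  ext y
  exact h y

lemma aut_ext_o {f g : MulAut (FreeGroup L2)} (h : ∀ y, f (o y) = g (o y)) : f = g := by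
  have : (f : FreeGroup L2 →* FreeGroup L2) = (g : FreeGroup L2 →* FreeGroup L2) := hom_ext_o h
  ext x
  exact DFunLike.congr_fun this x

lemma e4h_comp (x a : L2) : (e4h x (nv a)).comp (e4h x a) = MonoidHom.id _ := by
  by_cases h : x.1 = a.1
  · apply hom_ext_o
    intro y
    rw [MonoidHom.comp_apply, e4h_o, e4f, if_pos h, e4h_o, e4f, if_pos (by simpa using h)]
    rfl
  · have h' : x.1 ≠ (nv a).1 := h
    apply hom_ext_o
    intro y
    rw [MonoidHom.comp_apply, e4h_o, MonoidHom.id_apply]
    rcases fin2_cases (y := y) h with e | e | e | e <;> subst e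
    · rw [e4f_x h, map_mul, map_inv, e4h_o, e4h_o, e4f_x h', e4f_a h', nv_nv]; group
    · rw [e4f_nx h, map_mul, map_inv, e4h_o, e4h_o, e4f_nx h']
      have := e4f_na h'
      rw [nv_nv] at this
      rw [this]; group
    · rw [e4f_a h, map_inv, e4h_o, e4f_a h', nv_nv, inv_inv]
    · rw [e4f_na h, map_inv, e4h_o]
      have := e4f_na h'
      rw [nv_nv] at this
      rw [this, inv_inv]

/-- The elementary automorphisms. -/
def e4 (x a : L2) : MulAut (FreeGroup L2) :=
  MonoidHom.toMulEquiv (e4h x a) (e4h x (nv a)) (e4h_comp x a) (by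
    have := e4h_comp x (nv a)
    rwa [nv_nv] at this)

@[simp] lemma e4_o (x a y : L2) : e4 x a (o y) = e4f x a y := e4h_o x a y

lemma e4_junk {x a : L2} (h : x.1 = a.1) : e4 x a = 1 := by
  apply aut_ext_o
  intro y
  rw [e4_o, e4f, if_pos h]
  rfl

/-- Right and left multiplications have the same image. -/
lemma e4_nv_nv (x a : L2) : e4 (nv x) (nv a) = e4 x a := by
  by_cases h : x.1 = a.1
  · rw [e4_junk h, e4_junk (by simpa using h)]
  · have h' : (nv x).1 ≠ (nv a).1 := h
    apply aut_ext_o
    intro y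
    rw [e4_o, e4_o]
    rcases fin2_cases (y := y) h with e | e | e | e <;> subst e
    · have := e4f_nx h'
      rw [nv_nv] at this
      rw [this, e4f_x h]
    · rw [e4f_x h', e4f_nx h, nv_nv]
    · have := e4f_na h'
      rw [nv_nv] at this
      rw [this, e4f_a h]
    · rw [e4f_a h', e4f_na h, nv_nv]

lemma e4_inv (x a : L2) : e4 x (nv a) = (e4 x a)⁻¹ := by
  apply aut_ext_o
  intro y
  rfl

lemma e4_nv_left (x a : L2) : e4 (nv x) a = (e4 x a)⁻¹ := by
  rw [← e4_inv, ← e4_nv_nv x (nv a), nv_nv]

/-- The relations of the action. -/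
theorem rel_e4 : Rel w4 e4 where
  junk x a h := e4_junk h
  e0 w x a := by
    rw [mul_inv_eq_iff_eq_mul]
    by_cases h : x.1 = a.1
    · have h' : ((w : Equiv.Perm L2) x).1 = ((w : Equiv.Perm L2) a).1 := by
        rcases fst_eq_iff.1 h with e | e
        · rw [e]
        · rw [e, SP.map_nv, nv_fst]
      rw [e4_junk h, e4_junk h', one_mul, mul_one]
    · have h' := fst_map_ne w h
      apply aut_ext_o
      intro y
      rw [MulAut.mul_apply, MulAut.mul_apply, e4_o, w4_o, e4_o]
      rcases fin2_cases (y := y) h with e | e | e | e <;> subst e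
      · rw [e4f_x h, e4f_x h', map_mul, map_inv, w4_o, w4_o, SP.map_nv]
      · rw [e4f_nx h, SP.map_nv, e4f_nx h', map_mul, map_inv, w4_o, w4_o, SP.map_nv]
      · rw [e4f_a h, e4f_a h', map_inv, w4_o, SP.map_nv]
      · rw [e4f_na h, SP.map_nv, e4f_na h', map_inv, w4_o]
  e1 x a := e4_inv x a
  e2 x y a b hxy h1 h2 := by
    by_cases hx : x.1 = a.1
    · rw [e4_junk hx]; exact Commute.one_left _
    by_cases hy : y.1 = b.1
    · rw [e4_junk hy]; exact Commute.one_right _
    -- then `y = x⁻¹` and `b = a^{±1}`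
    have hyx : y.1 = x.1 := by
      rcases fin2_cases (y := y) hx with e | e | e | e
      · rw [e]
      · rw [e]; rfl
      · exact absurd (by rw [e]) h2
      · exact absurd (by rw [e]; rfl) h2
    have hy' : y = nv x := by
      rcases fst_eq_iff.1 hyx with e | e
      · exact absurd e.symm hxy
      · exact e
    have hb : b = a ∨ b = nv a := by
      rcases fin2_cases (y := b) hx with e | e | e | e
      · exact absurd (by rw [e]) h1
      · exact absurd (by rw [e]; rfl) h1
      · exact Or.inl e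
      · exact Or.inr e
    subst hy'
    rcases hb with e | e
    · rw [e, e4_nv_left]; exact (Commute.refl _).inv_right
    · rw [e, e4_nv_nv]
  e3 x y z h1 h2 h3 := by
    exfalso
    have h4 := x.1.2
    have h5 := y.1.2
    have h6 := z.1.2
    have h7 : x.1.1 ≠ y.1.1 := fun e => h1 (Fin.ext e)
    have h8 : x.1.1 ≠ z.1.1 := fun e => h2 (Fin.ext e)
    have h9 : y.1.1 ≠ z.1.1 := fun e => h3 (Fin.ext e)
    omega
  e4 a b σ h1 h2 h3 h4 := by
    have h1' : b.1 ≠ a.1 := Ne.symm h1
    have h1'' : (nv a).1 ≠ b.1 := h1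
    have h2' : (σ : Equiv.Perm L2) (nv a) = b := by rw [SP.map_nv, h2, nv_nv]
    have h3' : (σ : Equiv.Perm L2) (nv b) = nv a := by rw [SP.map_nv, h3]
    apply aut_ext_o
    intro y
    rw [MulAut.mul_apply, MulAut.mul_apply, e4_o, e4_o]
    rcases fin2_cases (y := y) h1 with e | e | e | e <;> subst e
    · rw [e4f_a h1', e4f_x h1, map_inv, e4_o, e4f_x h1'', map_mul, map_inv, w4_o, w4_o, h2, h3']
      group
    · rw [e4f_na h1', e4f_nx h1, map_inv, e4_o, map_mul, map_inv, w4_o, w4_o, h2', h3]
      have := e4f_nx h1''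
      rw [nv_nv] at this
      rw [this]
      group
    · rw [e4f_x h1', e4f_a h1, map_mul, map_inv, e4_o, e4_o, e4f_x h1'', e4f_a h1'', map_inv, w4_o,
        h3']
      group
    · rw [e4f_nx h1', e4f_na h1, map_mul, map_inv, e4_o, e4_o, e4f_na h1'', map_inv, w4_o, h3]
      have := e4f_nx h1''
      rw [nv_nv] at this
      rw [this]
      group

end

end Pool.Agent.Helper741_OutEmb
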