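import Pool.Agent.Helper741_OutEmb.BP

set_option autoImplicit false
set_option linter.unusedSectionVars false

/-!
# Supplements of the inner automorphisms: Bogopolski-Puga supplements and intersections
-/

namespace Pool.Agent.Helper741_OutEmb

open Pool.Agent.Helper156.OF

section

variable {G V : Type} [Group G]

/-- The stabiliser of a point under an action given by a homomorphism. -/
def stab (f : G →* Equiv.Perm V) (x : V) : Subgroup G where
  carrier := {g | f g x = x}
  mul_mem' := by
    intro a b ha hb
    show f (a * b) x = x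
    rw [map_mul, Equiv.Perm.mul_apply, show f b x = x from hb, show f a x = x from ha]
  one_mem' := by
    show f 1 x = x
    rw [map_one]; rfl
  inv_mem' := by
    intro a ha
    show f a⁻¹ x = x
    rw [map_inv, Equiv.Perm.inv_eq_iff_eq]
    exact (show f a x = x from ha).symm

lemma mem_stab {f : G →* Equiv.Perm V} {x : V} {g : G} : g ∈ stab f x ↔ f g x = x := Iff.rfl

lemma index_stab (f : G →* Equiv.Perm V) (x : V) (h : ∀ v, ∃ g, f g x = v) :
    (stab f x).index = Nat.card V := by
  let F : G ⧸ stab f x → V := fun q => Quotient.liftOn' q (fun g => f g x) (by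
    intro a b hab
    rw [QuotientGroup.leftRel_apply, mem_stab, map_mul, Equiv.Perm.mul_apply, map_inv,
      Equiv.Perm.inv_eq_iff_eq] at hab
    exact hab.symm)
  have hF : Function.Bijective F := by
    constructor
    · intro p q
      induction p using QuotientGroup.induction_on with
      | H a =>
        induction q using QuotientGroup.induction_on with
        | H b =>
          intro hab
          have : f a x = f b x := hab
          rw [QuotientGroup.eq, mem_stab, map_mul, Equiv.Perm.mul_apply, map_inv,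
            Equiv.Perm.inv_eq_iff_eq]
          exact this.symm
    · intro v
      obtain ⟨g, hg⟩ := h v
      exact ⟨(g : G ⧸ stab f x), hg⟩
  exact Nat.card_congr (Equiv.ofBijective F hF)

end

section

variable {G : Type} [Group G]

/-- Supplements of coprime index meet in a supplement. -/
theorem IsSupp.inf {A B : Subgroup (MulAut G)} {d e : ℕ} (hA : IsSupp A d) (hB : IsSupp B e)
    (h : Nat.Coprime d e) : IsSupp (A ⊓ B) (d * e) := by
  have hdvd : ∀ {H : Type} [Group H] (S T : Subgroup H), S.index = d → T.index = e →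
      (S ⊓ T).index = d * e := by
    intro H _ S T hS hT
    have h1 : d ∣ (S ⊓ T).index := hS ▸ Subgroup.index_dvd_of_le inf_le_left
    have h2 : e ∣ (S ⊓ T).index := hT ▸ Subgroup.index_dvd_of_le inf_le_right
    have h3 : d * e ∣ (S ⊓ T).index := h.mul_dvd_of_dvd_of_dvd h1 h2
    have h4 : (S ⊓ T).index ≤ d * e := by
      have := Subgroup.index_inf_le (H := S) (K := T)
      rwa [hS, hT] at this
    have h5 : (S ⊓ T).index ≠ 0 := by
      apply Subgroup.index_inf_ne_zero
      · rw [hS]; exact hA.pos
      · rw [hT]; exact hB.pos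
    exact le_antisymm h4 (Nat.le_of_dvd (Nat.pos_of_ne_zero h5) h3)
  have hpos : d * e ≠ 0 := Nat.mul_ne_zero hA.pos hB.pos
  have i1 : (A ⊓ B).index = d * e := hdvd A B hA.index hB.index
  have i2 : (Ker (A ⊓ B)).index = d * e := by
    have : Ker (A ⊓ B) = Ker A ⊓ Ker B := rfl
    rw [this]
    exact hdvd _ _ (by rw [index_Ker hA.sup, hA.index]) (by rw [index_Ker hB.sup, hB.index])
  refine ⟨?_, i1, hpos⟩
  set C := A ⊓ B with hC
  let F : G ⧸ Ker C → MulAut G ⧸ C :=
    Quotient.map' (fun g => MulAut.conj g) (by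
      intro x y hxy
      rw [QuotientGroup.leftRel_apply] at hxy ⊢
      rw [← map_inv, ← map_mul]
      exact hxy)
  have hinj : Function.Injective F := by
    intro p q
    induction p using QuotientGroup.induction_on with
    | H a =>
      induction q using QuotientGroup.induction_on with
      | H b =>
        intro hab
        have : ((MulAut.conj a : MulAut G) : MulAut G ⧸ C) = ((MulAut.conj b : MulAut G) : MulAut G ⧸ C) :=
          hab
        rw [QuotientGroup.eq, ← map_inv, ← map_mul] at this
        rw [QuotientGroup.eq]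
        exact this
  have c1 : Nat.card (G ⧸ Ker C) = d * e := i2
  have c2 : Nat.card (MulAut G ⧸ C) = d * e := i1
  have hfin : Finite (MulAut G ⧸ C) := Nat.finite_of_card_ne_zero (by rw [c2]; exact hpos)
  have hsurj : Function.Surjective F :=
    ((Nat.bijective_iff_injective_and_card F).2 ⟨hinj, by rw [c1, c2]⟩).2
  rw [eq_top_iff]
  intro φ _
  obtain ⟨p, hp⟩ := hsurj (φ : MulAut G ⧸ C)
  induction p using QuotientGroup.induction_on with
  | H g =>
    have h1 : ((MulAut.conj g : MulAut G) : MulAut G ⧸ C) = (φ : MulAut G ⧸ C) := hp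
    rw [QuotientGroup.eq] at h1
    have h2 : φ = MulAut.conj g * ((MulAut.conj g)⁻¹ * φ) := by group
    rw [h2]
    exact (C ⊔ Inn G).mul_mem (Subgroup.mem_sup_right ⟨g, rfl⟩) (Subgroup.mem_sup_left h1)

lemma IsSupp.one : IsSupp (⊤ : Subgroup (MulAut G)) 1 :=
  ⟨top_sup_eq _, Subgroup.index_top, one_ne_zero⟩

end

/-- **Bogopolski-Puga supplements.** For `k` odd and coprime to `n - 1` the inner automorphisms
of the free group of rank `n ≥ 1` have a supplement of index `k ^ n`. -/
theorem exists_supp_pow {n k : ℕ} (hn : 1 ≤ n) (hk : Odd k) (hkn : Nat.Coprime k (n - 1)) :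
    ∃ A : Subgroup (MulAut (FreeGroup (Fin n))), IsSupp A (k ^ n) := by
  have : NeZero n := ⟨by omega⟩
  have hk0 : k ≠ 0 := by rintro rfl; exact absurd hk (by decide)
  have : NeZero k := ⟨hk0⟩
  obtain ⟨f, -, -, hf⟩ := exists_aff (α := Fin n) (ZMod k)
  set c : ZMod k := 2 * ((Fintype.card (Fin n) - 1 : ℕ) : ZMod k) with hc
  -- the translations
  let t : FreeGroup (Fin n) →* Multiplicative (Fin n → ZMod k) :=
    FreeGroup.lift (fun i => Multiplicative.ofAdd (-(c • ev (ZMod k) ((i, true) : Lt (Fin n)))))
  have ht : ∀ g v, f (MulAut.conj g) v = v + Multiplicative.toAdd (t g) := by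
    intro g
    induction g using FreeGroup.induction_on with
    | C1 => intro v; simp
    | of i =>
      intro v
      have := hf (i, true) v
      rw [gl_true] at this
      rw [this]
      simp [t, sub_eq_add_neg]
    | inv_of i ih =>
      intro v
      rw [map_inv, map_inv, map_inv, Equiv.Perm.inv_eq_iff_eq, ih]
      simp
    | mul x y hx hy =>
      intro v
      rw [map_mul, map_mul, map_mul, Equiv.Perm.mul_apply, hx, hy, toAdd_mul]
      abel
  have hunit : IsUnit c := by
    rw [hc]
    have h2 : IsUnit (2 : ZMod k) := by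
      have : ((2 : ℕ) : ZMod k) = 2 := by norm_cast
      rw [← this]
      exact (ZMod.isUnit_iff_coprime 2 k).2 (Nat.coprime_two_left.2 hk)
    have h3 : IsUnit (((Fintype.card (Fin n) - 1 : ℕ) : ZMod k)) := by
      rw [Fintype.card_fin]
      exact (ZMod.isUnit_iff_coprime _ k).2 hkn.symm
    exact h2.mul h3
  have hsurj : ∀ w : Fin n → ZMod k, ∃ g, Multiplicative.toAdd (t g) = w := by
    let S : AddSubgroup (Fin n → ZMod k) :=
      { carrier := {w | ∃ g, Multiplicative.toAdd (t g) = w}
        add_mem' := by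
          rintro _ _ ⟨g, rfl⟩ ⟨h, rfl⟩
          exact ⟨g * h, by rw [map_mul, toAdd_mul]⟩
        zero_mem' := ⟨1, by rw [map_one]; rfl⟩
        neg_mem' := by
          rintro _ ⟨g, rfl⟩
          exact ⟨g⁻¹, by rw [map_inv, toAdd_inv]⟩ }
    have hS1 : ∀ i : Fin n, c • (Pi.single i 1 : Fin n → ZMod k) ∈ S := by
      intro i
      have : -(c • (Pi.single i 1 : Fin n → ZMod k)) ∈ S := ⟨FreeGroup.of i, by simp [t, ev]⟩
      simpa using S.neg_mem this
    have hsm : ∀ (r : ZMod k) (w : Fin n → ZMod k), w ∈ S → r • w ∈ S := by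
      intro r w hw
      have : r • w = r.val • w := by
        rw [← Nat.cast_smul_eq_nsmul (ZMod k), ZMod.natCast_zmod_val]
      rw [this]
      exact S.nsmul_mem hw _
    have hS2 : ∀ (i : Fin n) (r : ZMod k), (Pi.single i r : Fin n → ZMod k) ∈ S := by
      intro i r
      obtain ⟨u, hu⟩ := hunit
      have h1 := hsm (r * (u⁻¹ : (ZMod k)ˣ)) _ (hS1 i)
      have h2 : (r * ((u⁻¹ : (ZMod k)ˣ) : ZMod k)) • c • (Pi.single i 1 : Fin n → ZMod k) =
          Pi.single i r := by
        rw [← hu, smul_smul, mul_assoc, Units.inv_mul, mul_one, ← Pi.single_smul]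
        simp
      rwa [h2] at h1
    intro w
    have : w ∈ S := by
      rw [← Finset.univ_sum_single w]
      exact S.sum_mem fun i _ => hS2 i _
    exact this
  refine ⟨stab f 0, ?_, ?_, pow_ne_zero _ hk0⟩
  · rw [eq_top_iff]
    intro φ _
    obtain ⟨g, hg⟩ := hsurj (f φ 0)
    have h1 : (MulAut.conj g)⁻¹ * φ ∈ stab f 0 := by
      rw [mem_stab, map_mul, Equiv.Perm.mul_apply, map_inv, Equiv.Perm.inv_eq_iff_eq, ht, hg]
      simp
    have h2 : φ = MulAut.conj g * ((MulAut.conj g)⁻¹ * φ) := by group
    rw [h2]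
    exact (stab f 0 ⊔ Inn _).mul_mem (Subgroup.mem_sup_right ⟨g, rfl⟩) (Subgroup.mem_sup_left h1)
  · rw [index_stab]
    · rw [Nat.card_fun, Nat.card_zmod, Nat.card_fin]
    · intro v
      obtain ⟨g, hg⟩ := hsurj v
      exact ⟨MulAut.conj g, by rw [ht, hg]; simp⟩

end Pool.Agent.Helper741_OutEmb
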